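import Mathlib

/-!
# The nonassociative `L^p`-spaces of a JBW*-algebra depend on the state

For the JBW*-algebra `M = M_2(ℂ)` and `p = 4` there are normal faithful states `φ, ψ` such that the
complex interpolation spaces `L^4(M, φ)` and `L^4(M, ψ)` are not isometrically isomorphic.

Idea. Let `ψ` be the tracial state and let `φ` have density `diag (1 - ε, ε)` with `ε` very small.
* The norm of `L^4(M, ψ)` is the Schatten norm of `S_4`. If `S` is an isometry of `L^4(M, φ)` onto
  `L^4(M, ψ)`, then the images of the two diagonal matrix units are disjoint (equality in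
  Clarkson's inequality), so after composing `S` with unitaries we may assume that it preserves the
  diagonal matrices. The reflection `x ↦ s x s`, `s = diag (1, -1)`, is an isometry on both sides,
  and this forces `S` to preserve the off-diagonal matrices, too.
* If `f` is admissible for `x` then so is its imaginary translate `f (z + i s)`; up to a diagonal
  unitary, its value at `1/4` is, up to an error of size `O(s)`, the matrix `x` with its
  off-diagonal entries multiplied by `exp (i s L)` where `L = log (2 sqrt (ε (1 - ε)))`. So for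
  `ε → 0` the norm of `L^4(M, φ)` is almost invariant under multiplication of the off-diagonal
  entries by any `c` with `|c| = 1`.
* By the first step the same holds for the norm of `S_4`. But `[[1, i], [i, 1]]` and
  `[[1, -1], [-1, 1]]` have different norms in `S_4`.
-/

set_option autoImplicit false

open Complex Matrix

namespace Pool.Agent.Results.MP_09632a_an.StateDependence

/-- The axioms of a unital complex Jordan algebra. -/
structure IsJordan {M : Type} [AddCommGroup M] [Module ℂ M] (mul : M → M → M) (one : M) :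
    Prop where
  mul_add : ∀ x y z, mul x (y + z) = mul x y + mul x z
  mul_smul : ∀ (c : ℂ) x y, mul x (c • y) = c • mul x y
  mul_comm : ∀ x y, mul x y = mul y x
  jordan : ∀ x y, mul x (mul (mul x x) y) = mul (mul x x) (mul x y)
  one_mul : ∀ x, mul one x = x

/-- The axioms of an involution. -/
structure IsInvolution {M : Type} [AddCommGroup M] [Module ℂ M] (mul : M → M → M)
    (inv : M → M) : Prop where
  inv_inv : ∀ x, inv (inv x) = x
  inv_add : ∀ x y, inv (x + y) = inv x + inv y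
  inv_smul : ∀ (c : ℂ) x, inv (c • x) = (starRingEnd ℂ) c • inv x
  inv_mul : ∀ x y, inv (mul x y) = mul (inv x) (inv y)

/-- The triple product `{x, y, z} = (x ∘ y) ∘ z + (y ∘ z) ∘ x - (x ∘ z) ∘ y`. -/
def triple {M : Type} [AddCommGroup M] (mul : M → M → M) (x y z : M) : M :=
  mul (mul x y) z + mul (mul y z) x - mul (mul x z) y

/-- The norm axioms of a JB*-algebra. -/
structure IsJBNorm {M : Type} [NormedAddCommGroup M] (mul : M → M → M) (inv : M → M) :
    Prop where
  norm_mul_le : ∀ x y, ‖mul x y‖ ≤ ‖x‖ * ‖y‖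
  norm_inv : ∀ x, ‖inv x‖ = ‖x‖
  norm_triple : ∀ x, ‖triple mul x (inv x) x‖ = ‖x‖ ^ 3

/-- `M` is, via the bilinear form `pair`, isometrically the dual space of `V`. -/
structure IsDual {M V : Type} [NormedAddCommGroup M] [NormedSpace ℂ M] [NormedAddCommGroup V]
    [NormedSpace ℂ V] (pair : M → V → ℂ) : Prop where
  add_left : ∀ x y v, pair (x + y) v = pair x v + pair y v
  smul_left : ∀ (c : ℂ) x v, pair (c • x) v = c * pair x v
  add_right : ∀ x u v, pair x (u + v) = pair x u + pair x v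
  smul_right : ∀ x (c : ℂ) v, pair x (c • v) = c * pair x v
  norm_le_iff : ∀ x (C : ℝ), 0 ≤ C → (‖x‖ ≤ C ↔ ∀ v, ‖pair x v‖ ≤ C * ‖v‖)
  surjective : ∀ Λ : StrongDual ℂ V, ∃ x, ∀ v, Λ v = pair x v

/-- A JBW*-algebra `M` with its predual `V = M_*`. -/
structure JBWStarAlgebra where
  /-- the algebra -/
  M : Type
  /-- the predual -/
  V : Type
  [nacgM : NormedAddCommGroup M]
  [nsM : NormedSpace ℂ M]
  [csM : CompleteSpace M]
  [nacgV : NormedAddCommGroup V]
  [nsV : NormedSpace ℂ V]
  [csV : CompleteSpace V]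
  /-- the Jordan product -/
  mul : M → M → M
  /-- the involution -/
  inv : M → M
  /-- the unit -/
  one : M
  /-- the duality between `M` and its predual -/
  pair : M → V → ℂ
  isJordan : IsJordan mul one
  isInvolution : IsInvolution mul inv
  isJBNorm : IsJBNorm mul inv
  isDual : IsDual pair

attribute [instance] JBWStarAlgebra.nacgM JBWStarAlgebra.nsM JBWStarAlgebra.csM
  JBWStarAlgebra.nacgV JBWStarAlgebra.nsV JBWStarAlgebra.csV

variable {J : JBWStarAlgebra}

/-- `φ ∈ M_*` is a normal faithful state: `φ(1) = 1`, and `φ(x) > 0` for every nonzero positive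
`x`; the positive elements of `M` are the squares of the self-adjoint elements. -/
structure IsFaithfulState (φ : J.V) : Prop where
  map_one : J.pair J.one φ = 1
  faithful : ∀ a, J.inv a = a → a ≠ 0 →
    0 < (J.pair (J.mul a a) φ).re ∧ (J.pair (J.mul a a) φ).im = 0

/-- `v = φ_x`, i.e. `v(y) = φ(x ∘ y)` for all `y ∈ M`. -/
def IsEmb (φ : J.V) (x : J.M) (v : J.V) : Prop :=
  ∀ y, J.pair y v = J.pair (J.mul x y) φ

/-- `f` is an admissible function for the compatible couple `(M, M_*)`: it is bounded and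
continuous on the closed strip `0 ≤ Re z ≤ 1` with values in the predual, holomorphic in its
interior, its boundary function on `Re z = 0` is a continuous function `g` with values in `M`, and
the norms `‖g(t)‖_M` and `‖f(1 + it)‖_{M_*}` are bounded by `R`. -/
structure Admissible (φ : J.V) (f : ℂ → J.V) (R : ℝ) : Prop where
  continuousOn : ContinuousOn f {z | 0 ≤ z.re ∧ z.re ≤ 1}
  differentiableOn : DifferentiableOn ℂ f {z | 0 < z.re ∧ z.re < 1}
  bounded : ∃ C, ∀ z : ℂ, 0 ≤ z.re → z.re ≤ 1 → ‖f z‖ ≤ C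
  left : ∃ g : ℝ → J.M, Continuous g ∧ ∀ t : ℝ, IsEmb φ (g t) (f (t * I)) ∧ ‖g t‖ ≤ R
  right : ∀ t : ℝ, ‖f (1 + t * I)‖ ≤ R

/-- The complex interpolation space `L^p(M, φ) = (M, M_*)_{1/p}`, as a subset of `M_*`. -/
def LpSpace (φ : J.V) (p : ℝ) : Set J.V :=
  {v | ∃ f R, Admissible φ f R ∧ f ((1 / p : ℝ) : ℂ) = v}

/-- The norm of the complex interpolation space `L^p(M, φ) = (M, M_*)_{1/p}`. -/
noncomputable def lpNorm (φ : J.V) (p : ℝ) (v : J.V) : ℝ :=
  sInf {R : ℝ | ∃ f, Admissible φ f R ∧ f ((1 / p : ℝ) : ℂ) = v}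

/-- `T` is a linear isometry of `L^p(M, φ)` onto `L^p(M, ψ)`. -/
structure IsIsometry (φ ψ : J.V) (p : ℝ) (T : J.V → J.V) : Prop where
  add : ∀ u ∈ LpSpace φ p, ∀ v ∈ LpSpace φ p, T (u + v) = T u + T v
  smul : ∀ (c : ℂ), ∀ v ∈ LpSpace φ p, T (c • v) = c • T v
  bij : Set.BijOn T (LpSpace φ p) (LpSpace ψ p)
  norm : ∀ v ∈ LpSpace φ p, lpNorm ψ p (T v) = lpNorm φ p v

/-! ### Auxiliary definitions for the proof

The same notions, with the predual realised as a subspace of the dual space. -/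

namespace Aux


/-- The axioms of a unital complex Jordan algebra. -/
structure IsJordan {M : Type} [AddCommGroup M] [Module ℂ M] (mul : M → M → M) (one : M) :
    Prop where
  mul_add : ∀ x y z, mul x (y + z) = mul x y + mul x z
  mul_smul : ∀ (c : ℂ) x y, mul x (c • y) = c • mul x y
  mul_comm : ∀ x y, mul x y = mul y x
  jordan : ∀ x y, mul x (mul (mul x x) y) = mul (mul x x) (mul x y)
  one_mul : ∀ x, mul one x = x

/-- The axioms of an involution. -/
structure IsInvolution {M : Type} [AddCommGroup M] [Module ℂ M] (mul : M → M → M)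
    (inv : M → M) : Prop where
  inv_inv : ∀ x, inv (inv x) = x
  inv_add : ∀ x y, inv (x + y) = inv x + inv y
  inv_smul : ∀ (c : ℂ) x, inv (c • x) = (starRingEnd ℂ) c • inv x
  inv_mul : ∀ x y, inv (mul x y) = mul (inv x) (inv y)

/-- The norm axioms of a JB*-algebra. -/
structure IsJBNorm {M : Type} [NormedAddCommGroup M] (mul : M → M → M) (inv : M → M) :
    Prop where
  norm_mul_le : ∀ x y, ‖mul x y‖ ≤ ‖x‖ * ‖y‖
  norm_inv : ∀ x, ‖inv x‖ = ‖x‖
  norm_triple : ∀ x,
    ‖mul (mul x (inv x)) x + mul (mul (inv x) x) x - mul (mul x x) (inv x)‖ = ‖x‖ ^ 3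

/-- `P` is a predual of `M`: a closed subspace of the dual space of `M` such that `M` is
isometrically, by evaluation, the dual space of `P`. -/
structure IsPredual {M : Type} [NormedAddCommGroup M] [NormedSpace ℂ M]
    (P : Submodule ℂ (StrongDual ℂ M)) : Prop where
  isClosed : IsClosed (P : Set (StrongDual ℂ M))
  norm_le : ∀ (x : M) (C : ℝ), 0 ≤ C → (∀ ξ ∈ P, ‖ξ x‖ ≤ C * ‖ξ‖) → ‖x‖ ≤ C
  exists_eval : ∀ Λ : StrongDual ℂ P, ∃ x : M, ∀ ξ : P, Λ ξ = (ξ : StrongDual ℂ M) x

/-- A JBW*-algebra: a complex Banach space `M` which is a unital complex Jordan algebra with an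
involution, satisfying the norm axioms of a JB*-algebra, with a predual. -/
structure JBWStarAlgebra where
  /-- the underlying space -/
  M : Type
  [nacg : NormedAddCommGroup M]
  [ns : NormedSpace ℂ M]
  [cs : CompleteSpace M]
  /-- the Jordan product -/
  mul : M → M → M
  /-- the involution -/
  inv : M → M
  /-- the unit -/
  one : M
  isJordan : IsJordan mul one
  isInvolution : IsInvolution mul inv
  isJBNorm : IsJBNorm mul inv
  /-- the predual, as a subspace of the dual space -/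
  predual : Submodule ℂ (StrongDual ℂ M)
  isPredual : IsPredual predual

attribute [instance] JBWStarAlgebra.nacg JBWStarAlgebra.ns JBWStarAlgebra.cs

/-- Multiplication by `x`, as a linear map. -/
def JBWStarAlgebra.mulL (J : JBWStarAlgebra) (x : J.M) : J.M →ₗ[ℂ] J.M where
  toFun := J.mul x
  map_add' := J.isJordan.mul_add x
  map_smul' c := J.isJordan.mul_smul c x

/-- Multiplication by `x`, as a continuous linear map. -/
noncomputable def JBWStarAlgebra.mulC (J : JBWStarAlgebra) (x : J.M) : J.M →L[ℂ] J.M :=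
  (J.mulL x).mkContinuous ‖x‖ (J.isJBNorm.norm_mul_le x)

/-- A normal faithful state. The positive elements of `M` are the squares of the self-adjoint
elements. -/
structure NormalFaithfulState (J : JBWStarAlgebra) where
  /-- the functional -/
  φ : StrongDual ℂ J.M
  normal : φ ∈ J.predual
  map_one : φ J.one = 1
  faithful : ∀ a, J.inv a = a → a ≠ 0 → 0 < (φ (J.mul a a)).re ∧ (φ (J.mul a a)).im = 0

/-- The embedding `x ↦ φ_x = φ(x ∘ ·)` of `M` into its dual space. -/
noncomputable def NormalFaithfulState.emb {J : JBWStarAlgebra} (φ : NormalFaithfulState J)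
    (x : J.M) : StrongDual ℂ J.M :=
  φ.φ.comp (J.mulC x)

theorem emb_apply {J : JBWStarAlgebra} (φ : NormalFaithfulState J) (x y : J.M) :
    φ.emb x y = φ.φ (J.mul x y) := rfl

theorem emb_add {J : JBWStarAlgebra} (φ : NormalFaithfulState J) (x y : J.M) :
    φ.emb (x + y) = φ.emb x + φ.emb y := by
  ext z
  change φ.φ (J.mul (x + y) z) = φ.φ (J.mul x z) + φ.φ (J.mul y z)
  rw [J.isJordan.mul_comm, J.isJordan.mul_add, J.isJordan.mul_comm z x, J.isJordan.mul_comm z y,
    map_add]

theorem emb_smul {J : JBWStarAlgebra} (φ : NormalFaithfulState J) (c : ℂ) (x : J.M) :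
    φ.emb (c • x) = c • φ.emb x := by
  ext z
  change φ.φ (J.mul (c • x) z) = c • φ.φ (J.mul x z)
  rw [J.isJordan.mul_comm, J.isJordan.mul_smul, J.isJordan.mul_comm z x, map_smul]

theorem emb_zero {J : JBWStarAlgebra} (φ : NormalFaithfulState J) : φ.emb 0 = 0 := by
  have h := emb_smul φ 0 0
  rw [zero_smul ℂ (0 : J.M)] at h
  rw [h, zero_smul ℂ (φ.emb 0)]

/-- `f` is an admissible function for the compatible couple `(M, M_*)`: it is bounded and
continuous on the closed strip `0 ≤ Re z ≤ 1` with values in the predual, holomorphic in its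
interior, its boundary function on `Re z = 0` is a continuous function `g` with values in `M`, and
the norms `‖g(t)‖_M` and `‖f(1 + it)‖_{M_*}` are bounded by `R`. -/
structure Admissible {J : JBWStarAlgebra} (φ : NormalFaithfulState J) (f : ℂ → StrongDual ℂ J.M)
    (R : ℝ) : Prop where
  mem_predual : ∀ z : ℂ, 0 ≤ z.re → z.re ≤ 1 → f z ∈ J.predual
  continuousOn : ContinuousOn f {z | 0 ≤ z.re ∧ z.re ≤ 1}
  differentiableOn : DifferentiableOn ℂ f {z | 0 < z.re ∧ z.re < 1}
  bounded : ∃ C, ∀ z : ℂ, 0 ≤ z.re → z.re ≤ 1 → ‖f z‖ ≤ C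
  left : ∃ g : ℝ → J.M, Continuous g ∧ ∀ t : ℝ, f (t * I) = φ.emb (g t) ∧ ‖g t‖ ≤ R
  right : ∀ t : ℝ, ‖f (1 + t * I)‖ ≤ R

/-- The norm of the complex interpolation space `L^p(M, φ) = (M, M_*)_{1/p}`. -/
noncomputable def lpNorm {J : JBWStarAlgebra} (φ : NormalFaithfulState J) (p : ℝ)
    (η : StrongDual ℂ J.M) : ℝ :=
  sInf {R : ℝ | ∃ f, Admissible φ f R ∧ f ((1 / p : ℝ) : ℂ) = η}

theorem Admissible.add {J : JBWStarAlgebra} {φ : NormalFaithfulState J}
    {f f' : ℂ → StrongDual ℂ J.M} {R R' : ℝ} (h : Admissible φ f R) (h' : Admissible φ f' R') :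
    Admissible φ (fun z => f z + f' z) (R + R') where
  mem_predual z h0 h1 := J.predual.add_mem (h.mem_predual z h0 h1) (h'.mem_predual z h0 h1)
  continuousOn := h.continuousOn.add h'.continuousOn
  differentiableOn := h.differentiableOn.add h'.differentiableOn
  bounded := by
    obtain ⟨C, hC⟩ := h.bounded
    obtain ⟨C', hC'⟩ := h'.bounded
    exact ⟨C + C', fun z h0 h1 => (norm_add_le _ _).trans (add_le_add (hC z h0 h1) (hC' z h0 h1))⟩
  left := by
    obtain ⟨g, hg, hgf⟩ := h.left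
    obtain ⟨g', hg', hgf'⟩ := h'.left
    refine ⟨fun t => g t + g' t, hg.add hg', fun t => ⟨?_, ?_⟩⟩
    · rw [(hgf t).1, (hgf' t).1, emb_add]
    · exact (norm_add_le _ _).trans (add_le_add (hgf t).2 (hgf' t).2)
  right t := (norm_add_le _ _).trans (add_le_add (h.right t) (h'.right t))

theorem Admissible.smul {J : JBWStarAlgebra} {φ : NormalFaithfulState J}
    {f : ℂ → StrongDual ℂ J.M} {R : ℝ} (h : Admissible φ f R) (c : ℂ) :
    Admissible φ (fun z => c • f z) (‖c‖ * R) where
  mem_predual z h0 h1 := J.predual.smul_mem c (h.mem_predual z h0 h1)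
  continuousOn := h.continuousOn.const_smul c
  differentiableOn := h.differentiableOn.const_smul c
  bounded := by
    obtain ⟨C, hC⟩ := h.bounded
    refine ⟨‖c‖ * C, fun z h0 h1 => ?_⟩
    rw [norm_smul]
    exact mul_le_mul_of_nonneg_left (hC z h0 h1) (norm_nonneg c)
  left := by
    obtain ⟨g, hg, hgf⟩ := h.left
    refine ⟨fun t => c • g t, hg.const_smul c, fun t => ⟨?_, ?_⟩⟩
    · rw [(hgf t).1, emb_smul]
    · rw [norm_smul]
      exact mul_le_mul_of_nonneg_left (hgf t).2 (norm_nonneg c)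
  right t := by
    rw [norm_smul]
    exact mul_le_mul_of_nonneg_left (h.right t) (norm_nonneg c)

theorem admissible_zero {J : JBWStarAlgebra} (φ : NormalFaithfulState J) :
    Admissible φ (fun _ => 0) 0 where
  mem_predual z h0 h1 := J.predual.zero_mem
  continuousOn := continuousOn_const
  differentiableOn := differentiableOn_const _
  bounded := ⟨0, fun z h0 h1 => by simp⟩
  left := ⟨fun _ => 0, continuous_const, fun t => ⟨(emb_zero φ).symm, by simp⟩⟩
  right t := by simp

/-- The complex interpolation space `L^p(M, φ) = (M, M_*)_{1/p}`, as a subspace of the dual space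
(contained in the predual). -/
def LpSpace {J : JBWStarAlgebra} (φ : NormalFaithfulState J) (p : ℝ) :
    Submodule ℂ (StrongDual ℂ J.M) where
  carrier := {η | ∃ f R, Admissible φ f R ∧ f ((1 / p : ℝ) : ℂ) = η}
  add_mem' := by
    rintro _ _ ⟨f, R, h, rfl⟩ ⟨f', R', h', rfl⟩
    exact ⟨_, _, h.add h', rfl⟩
  zero_mem' := ⟨_, _, admissible_zero φ, rfl⟩
  smul_mem' := by
    rintro c _ ⟨f, R, h, rfl⟩
    exact ⟨_, _, h.smul c, rfl⟩

/-- `L^p(M, φ)` and `L^p(M, ψ)` are isometrically isomorphic: there is a linear bijection which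
preserves the norms. -/
def IsometricallyIsomorphic {J : JBWStarAlgebra} (φ ψ : NormalFaithfulState J) (p : ℝ) : Prop :=
  ∃ T : LpSpace φ p ≃ₗ[ℂ] LpSpace ψ p, ∀ η : LpSpace φ p,
    lpNorm ψ p (T η : StrongDual ℂ J.M) = lpNorm φ p (η : StrongDual ℂ J.M)

/-! ### General properties of the interpolation norm -/

theorem strip_le {h : ℂ → ℂ} {R : ℝ} (hR : 0 ≤ R)
    (hc : ContinuousOn h {z | 0 ≤ z.re ∧ z.re ≤ 1})
    (hd : DifferentiableOn ℂ h {z | 0 < z.re ∧ z.re < 1})
    (hb : ∃ C, ∀ z : ℂ, 0 ≤ z.re → z.re ≤ 1 → ‖h z‖ ≤ C)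
    (h0 : ∀ t : ℝ, ‖h (t * I)‖ ≤ R) (h1 : ∀ t : ℝ, ‖h (1 + t * I)‖ ≤ R) {z : ℂ}
    (hz0 : 0 ≤ z.re) (hz1 : z.re ≤ 1) : ‖h z‖ ≤ R := by
  have key := HadamardThreeLines.norm_le_interp_of_mem_verticalClosedStrip₀₁' h (z := z) (a := R)
    (b := R) ⟨hz0, hz1⟩ ?_ ?_ ?_ ?_
  · refine key.trans (le_of_eq ?_)
    rcases hR.eq_or_lt with rfl | hR
    · by_cases h : z.re = 0
      · rw [h]; simp
      · rw [Real.zero_rpow h, mul_zero]
    · rw [← Real.rpow_add hR]
      simp
  · refine ⟨hd, ?_⟩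
    have : closure (HadamardThreeLines.verticalStrip 0 1) = {z : ℂ | 0 ≤ z.re ∧ z.re ≤ 1} := by
      rw [HadamardThreeLines.verticalStrip, Complex.closure_preimage_re, closure_Ioo zero_ne_one]
      rfl
    rw [this]
    exact hc
  · obtain ⟨C, hC⟩ := hb
    refine ⟨C, ?_⟩
    rintro _ ⟨w, hw, rfl⟩
    exact hC w hw.1 hw.2
  · intro w hw
    have : w = (w.im : ℂ) * I := by
      apply Complex.ext <;> simp
      exact hw
    rw [this]
    exact h0 _
  · intro w hw
    have : w = 1 + (w.im : ℂ) * I := by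
      apply Complex.ext <;> simp
      exact hw
    rw [this]
    exact h1 _

/-- the Lipschitz estimate on the line `Re z = 1/4` -/
theorem strip_lip {h : ℂ → ℂ} {R : ℝ}
    (hd : DifferentiableOn ℂ h {z | 0 < z.re ∧ z.re < 1})
    (hb : ∀ z : ℂ, 0 ≤ z.re → z.re ≤ 1 → ‖h z‖ ≤ R) (s : ℝ) :
    ‖h (1 / 4 + s * I) - h (1 / 4)‖ ≤ 8 * R * |s| := by
  have hopen : IsOpen {z : ℂ | 0 < z.re ∧ z.re < 1} :=
    (isOpen_lt continuous_const Complex.continuous_re).inter
      (isOpen_lt Complex.continuous_re continuous_const)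
  have hconv : Convex ℝ {z : ℂ | z.re = 1 / 4} := by
    have : {z : ℂ | z.re = 1 / 4} = Complex.reLm ⁻¹' {1 / 4} := by
      ext z; simp
    rw [this]
    exact (convex_singleton _).linear_preimage _
  have key := Convex.norm_image_sub_le_of_norm_deriv_le (𝕜 := ℂ) (f := h) (C := 8 * R)
    (s := {z : ℂ | z.re = 1 / 4}) (x := 1 / 4) (y := 1 / 4 + s * I) ?_ ?_ hconv ?_ ?_
  · simpa using key
  · intro z hz
    have hz' : z.re = 1 / 4 := hz
    exact (hd z (by simp only [Set.mem_ofPred_eq, hz']; norm_num)).differentiableAt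
      (hopen.mem_nhds (by simp only [Set.mem_ofPred_eq, hz']; norm_num))
  · intro z hz
    have hz' : z.re = 1 / 4 := hz
    have hball : Metric.closedBall z (1 / 8) ⊆ {z : ℂ | 0 < z.re ∧ z.re < 1} := by
      intro w hw
      have h1 : |w.re - z.re| ≤ 1 / 8 := by
        have := Complex.abs_re_le_norm (w - z)
        rw [Complex.sub_re] at this
        exact this.trans (by rw [← dist_eq_norm]; exact hw)
      rw [abs_le] at h1
      rw [hz'] at h1
      constructor <;> [linarith [h1.1]; linarith [h1.2]]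
    have := Complex.norm_deriv_le_of_forall_mem_sphere_norm_le (f := h) (c := z) (R := 1 / 8)
      (C := R) (by norm_num) ?_ ?_
    · refine this.trans (le_of_eq ?_)
      ring
    · exact (hd.mono hball).diffContOnCl_ball subset_rfl
    · intro w hw
      have := hball (Metric.sphere_subset_closedBall hw)
      exact hb w this.1.le this.2.le
  · simp
  · simp

section general

variable {J : JBWStarAlgebra} {φ : NormalFaithfulState J}

/-- the embedding as a continuous linear map -/
noncomputable def embL (φ : NormalFaithfulState J) : J.M →L[ℂ] StrongDual ℂ J.M :=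
  LinearMap.mkContinuous
    { toFun := φ.emb
      map_add' := emb_add φ
      map_smul' := emb_smul φ } ‖φ.φ‖ (fun x => by
        refine ContinuousLinearMap.opNorm_le_bound _ (by positivity) fun y => ?_
        change ‖φ.φ (J.mul x y)‖ ≤ _
        refine (φ.φ.le_opNorm _).trans ?_
        rw [mul_assoc]
        exact mul_le_mul_of_nonneg_left (J.isJBNorm.norm_mul_le x y) (norm_nonneg _))

theorem embL_apply (φ : NormalFaithfulState J) (x : J.M) : embL φ x = φ.emb x := rfl

theorem Admissible.nonneg {f : ℂ → StrongDual ℂ J.M} {R : ℝ} (h : Admissible φ f R) : 0 ≤ R :=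
  (norm_nonneg _).trans (h.right 0)

theorem Admissible.mono {f : ℂ → StrongDual ℂ J.M} {R R' : ℝ} (h : Admissible φ f R)
    (hR : R ≤ R') : Admissible φ f R' where
  mem_predual := h.mem_predual
  continuousOn := h.continuousOn
  differentiableOn := h.differentiableOn
  bounded := h.bounded
  left := by
    obtain ⟨g, hg, hgf⟩ := h.left
    exact ⟨g, hg, fun t => ⟨(hgf t).1, (hgf t).2.trans hR⟩⟩
  right t := (h.right t).trans hR

theorem bdd (φ : NormalFaithfulState J) (p : ℝ) (η : StrongDual ℂ J.M) :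
    BddBelow {R : ℝ | ∃ f, Admissible φ f R ∧ f ((1 / p : ℝ) : ℂ) = η} :=
  ⟨0, by rintro R ⟨f, hf, -⟩; exact hf.nonneg⟩

/-- the norm of `x` in `L^4` -/
noncomputable def N (φ : NormalFaithfulState J) (x : J.M) : ℝ := lpNorm φ 4 (φ.emb x)

theorem four_eq : ((1 / (4 : ℝ) : ℝ) : ℂ) = 1 / 4 := by push_cast; rfl

theorem N_le {x : J.M} {f : ℂ → StrongDual ℂ J.M} {R : ℝ} (h : Admissible φ f R)
    (hf : f (1 / 4) = φ.emb x) : N φ x ≤ R :=
  csInf_le (bdd φ 4 _) ⟨f, h, by rw [four_eq, hf]⟩

/-- admissible functions with values in a finite-dimensional subspace of the algebra -/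
theorem adm_of {ι : Type} [Fintype ι] (hmem : ∀ x, φ.emb x ∈ J.predual) (c : ι → ℂ → ℂ)
    (v : ι → J.M) {R : ℝ} (hc : ∀ i, Differentiable ℂ (c i))
    (hb : ∀ i, ∃ C, ∀ z : ℂ, 0 ≤ z.re → z.re ≤ 1 → ‖c i z‖ ≤ C)
    (h0 : ∀ t : ℝ, ‖∑ i, c i (t * I) • v i‖ ≤ R)
    (h1 : ∀ t : ℝ, ‖φ.emb (∑ i, c i (1 + t * I) • v i)‖ ≤ R) :
    Admissible φ (fun z => φ.emb (∑ i, c i z • v i)) R := by
  have hd : Differentiable ℂ fun z => ∑ i, c i z • v i := by
    refine Differentiable.fun_sum fun i _ => ?_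
    exact (hc i).smul_const (v i)
  have hd' : Differentiable ℂ fun z => φ.emb (∑ i, c i z • v i) :=
    (embL φ).differentiable.comp hd
  refine ⟨fun _ _ _ => hmem _, hd'.continuous.continuousOn, hd'.differentiableOn, ?_, ?_, h1⟩
  · choose C hC using hb
    refine ⟨‖embL φ‖ * ∑ i, C i * ‖v i‖, fun z hz0 hz1 => ?_⟩
    refine ((embL φ).le_opNorm _).trans (mul_le_mul_of_nonneg_left ?_ (norm_nonneg _))
    refine (norm_sum_le _ _).trans (Finset.sum_le_sum fun i _ => ?_)
    rw [norm_smul]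
    exact mul_le_mul_of_nonneg_right (hC i z hz0 hz1) (norm_nonneg _)
  · exact ⟨fun t => ∑ i, c i (t * I) • v i, hd.continuous.comp (by fun_prop),
      fun t => ⟨rfl, h0 t⟩⟩

theorem exists_adm (hmem : ∀ x, φ.emb x ∈ J.predual) (x : J.M) :
    ∃ R f, Admissible φ f R ∧ f (1 / 4) = φ.emb x := by
  refine ⟨max ‖x‖ ‖φ.emb x‖, _, adm_of (ι := Unit) hmem (fun _ _ => 1) (fun _ => x)
    (fun _ => differentiable_const _) (fun _ => ⟨1, fun _ _ _ => by simp⟩) ?_ ?_, ?_⟩ <;> simp

theorem N_nonneg (φ : NormalFaithfulState J) (x : J.M) : 0 ≤ N φ x :=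
  Real.sInf_nonneg (by rintro R ⟨f, hf, -⟩; exact hf.nonneg)

theorem exists_lt (hmem : ∀ x, φ.emb x ∈ J.predual) {x : J.M} {R : ℝ} (h : N φ x < R) :
    ∃ f, Admissible φ f R ∧ f (1 / 4) = φ.emb x := by
  obtain ⟨R', ⟨f, hf, hfx⟩, hR⟩ := exists_lt_of_csInf_lt
    (by obtain ⟨R, f, h, h'⟩ := exists_adm hmem x; exact ⟨R, f, h, by rw [four_eq, h']⟩) h
  exact ⟨f, hf.mono hR.le, by rw [← hfx, four_eq]⟩

theorem le_N (hmem : ∀ x, φ.emb x ∈ J.predual) {x : J.M} {r : ℝ}
    (h : ∀ f R, Admissible φ f R → f (1 / 4) = φ.emb x → r ≤ R) : r ≤ N φ x :=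
  le_csInf (by obtain ⟨R, f, h, h'⟩ := exists_adm hmem x; exact ⟨R, f, h, by rw [four_eq, h']⟩)
    (by rintro R ⟨f, hf, hx⟩; exact h f R hf (by rw [← hx, four_eq]))

theorem N_add_le (hmem : ∀ x, φ.emb x ∈ J.predual) (x y : J.M) :
    N φ (x + y) ≤ N φ x + N φ y := by
  refine le_of_forall_pos_le_add fun ε hε => ?_
  obtain ⟨f, hf, hfx⟩ := exists_lt hmem (show N φ x < N φ x + ε / 2 by linarith)
  obtain ⟨f', hf', hfy⟩ := exists_lt hmem (show N φ y < N φ y + ε / 2 by linarith)
  have := N_le (x := x + y) (hf.add hf') (by rw [hfx, hfy, emb_add])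
  linarith

theorem N_smul_le (hmem : ∀ x, φ.emb x ∈ J.predual) (c : ℂ) (x : J.M) :
    N φ (c • x) ≤ ‖c‖ * N φ x := by
  refine le_of_forall_pos_le_add fun ε hε => ?_
  obtain ⟨f, hf, hfx⟩ := exists_lt hmem (show N φ x < N φ x + ε / (‖c‖ + 1) by
    have : 0 < ε / (‖c‖ + 1) := by positivity
    linarith)
  have := N_le (x := c • x) (hf.smul c) (by rw [hfx, emb_smul])
  refine this.trans ?_
  rw [mul_add]
  gcongr
  rw [mul_div_assoc', div_le_iff₀ (by positivity)]
  nlinarith [norm_nonneg c]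

theorem N_zero (hmem : ∀ x, φ.emb x ∈ J.predual) : N φ 0 = 0 := by
  have := N_smul_le hmem 0 0
  simp only [smul_zero, norm_zero, zero_mul] at this
  exact le_antisymm this (N_nonneg φ 0)

theorem N_smul (hmem : ∀ x, φ.emb x ∈ J.predual) (c : ℂ) (x : J.M) :
    N φ (c • x) = ‖c‖ * N φ x := by
  refine le_antisymm (N_smul_le hmem c x) ?_
  by_cases hc : c = 0
  · subst hc; simp [N_zero hmem]
  have h := N_smul_le hmem c⁻¹ (c • x)
  rw [smul_smul, inv_mul_cancel₀ hc, one_smul, norm_inv] at h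
  have hc' : 0 < ‖c‖ := norm_pos_iff.2 hc
  calc ‖c‖ * N φ x ≤ ‖c‖ * (‖c‖⁻¹ * N φ (c • x)) := by gcongr
    _ = N φ (c • x) := by field_simp

/-- transfer along a pair of adjoint contractions -/
theorem N_transfer (hpre : J.predual = ⊤) (α β : J.M →L[ℂ] J.M) (hα : ∀ x, ‖α x‖ ≤ ‖x‖)
    (hβ : ∀ x, ‖β x‖ ≤ ‖x‖) (hαβ : ∀ x y, φ.emb (α x) y = φ.emb x (β y)) (x : J.M) :
    N φ (α x) ≤ N φ x := by
  have hmem : ∀ x, φ.emb x ∈ J.predual := fun x => by rw [hpre]; trivial
  refine le_N hmem fun f R hf hfx => N_le (f := fun z => (f z).comp β) ?_ ?_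
  · have hcomp : ∀ η : StrongDual ℂ J.M, ‖η.comp β‖ ≤ ‖η‖ := by
      intro η
      refine ContinuousLinearMap.opNorm_le_bound _ (norm_nonneg _) fun y => ?_
      exact (η.le_opNorm _).trans (mul_le_mul_of_nonneg_left (hβ y) (norm_nonneg _))
    let L : StrongDual ℂ J.M →L[ℂ] StrongDual ℂ J.M :=
      (ContinuousLinearMap.compL ℂ J.M J.M ℂ).flip β
    refine ⟨fun _ _ _ => by rw [hpre]; trivial, ?_, ?_, ?_, ?_,
      fun t => (hcomp _).trans (hf.right t)⟩
    · exact L.continuous.comp_continuousOn hf.continuousOn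
    · exact L.differentiable.comp_differentiableOn hf.differentiableOn
    · obtain ⟨C, hC⟩ := hf.bounded
      exact ⟨C, fun z h0 h1 => (hcomp _).trans (hC z h0 h1)⟩
    · obtain ⟨g, hg, hgf⟩ := hf.left
      refine ⟨fun t => α (g t), α.continuous.comp hg, fun t => ⟨?_, (hα _).trans (hgf t).2⟩⟩
      ext y
      rw [hαβ, (hgf t).1]
      rfl
  · ext y
    rw [hαβ, hfx]
    rfl

/-- imaginary translations of admissible functions -/
theorem Admissible.shift {f : ℂ → StrongDual ℂ J.M} {R : ℝ} (h : Admissible φ f R) (s : ℝ) :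
    Admissible φ (fun z => f (z + s * I)) R := by
  have hre : ∀ z : ℂ, (z + s * I).re = z.re := fun z => by simp
  refine ⟨fun z h0 h1 => h.mem_predual _ (by rwa [hre]) (by rwa [hre]), ?_, ?_, ?_, ?_, ?_⟩
  · refine h.continuousOn.comp (by fun_prop) fun z hz => ?_
    exact ⟨by rw [hre]; exact hz.1, by rw [hre]; exact hz.2⟩
  · refine h.differentiableOn.comp (by fun_prop) fun z hz => ?_
    exact ⟨by rw [hre]; exact hz.1, by rw [hre]; exact hz.2⟩
  · obtain ⟨C, hC⟩ := h.bounded
    exact ⟨C, fun z h0 h1 => hC _ (by rwa [hre]) (by rwa [hre])⟩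
  · obtain ⟨g, hg, hgf⟩ := h.left
    refine ⟨fun t => g (t + s), by fun_prop, fun t => ⟨?_, (hgf _).2⟩⟩
    rw [← (hgf _).1]
    congr 1
    push_cast
    ring
  · intro t
    have := h.right (t + s)
    refine le_trans (le_of_eq ?_) this
    congr 2
    push_cast
    ring

/-- scalar functions from admissible functions -/
theorem Admissible.scalar {f : ℂ → StrongDual ℂ J.M} {R : ℝ} (h : Admissible φ f R)
    {ι : Type} [Fintype ι] (c : ι → ℂ → ℂ) (v : ι → J.M) (hc : ∀ i, Differentiable ℂ (c i))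
    (hb : ∀ i, ∃ C, ∀ z : ℂ, 0 ≤ z.re → z.re ≤ 1 → ‖c i z‖ ≤ C) :
    ContinuousOn (fun z => ∑ i, c i z * f z (v i)) {z | 0 ≤ z.re ∧ z.re ≤ 1} ∧
    DifferentiableOn ℂ (fun z => ∑ i, c i z * f z (v i)) {z | 0 < z.re ∧ z.re < 1} ∧
    ∃ C, ∀ z : ℂ, 0 ≤ z.re → z.re ≤ 1 → ‖∑ i, c i z * f z (v i)‖ ≤ C := by
  have hev : ∀ i, ContinuousOn (fun z => f z (v i)) {z | 0 ≤ z.re ∧ z.re ≤ 1} := fun i =>
    (ContinuousLinearMap.apply ℂ ℂ (v i)).continuous.comp_continuousOn h.continuousOn
  have hed : ∀ i, DifferentiableOn ℂ (fun z => f z (v i)) {z | 0 < z.re ∧ z.re < 1} := fun i =>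
    (ContinuousLinearMap.apply ℂ ℂ (v i)).differentiable.comp_differentiableOn h.differentiableOn
  refine ⟨?_, ?_, ?_⟩
  · exact continuousOn_finsetSum _ fun i _ => ((hc i).continuous.continuousOn).mul (hev i)
  · exact DifferentiableOn.fun_sum fun i _ => (hc i).differentiableOn.mul (hed i)
  · choose C hC using hb
    obtain ⟨C', hC'⟩ := h.bounded
    refine ⟨∑ i, C i * (C' * ‖v i‖), fun z h0 h1 => ?_⟩
    refine (norm_sum_le _ _).trans (Finset.sum_le_sum fun i _ => ?_)
    rw [norm_mul]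
    have h2 : ‖f z (v i)‖ ≤ C' * ‖v i‖ :=
      ((f z).le_opNorm _).trans (mul_le_mul_of_nonneg_right (hC' z h0 h1) (norm_nonneg _))
    exact mul_le_mul (hC i z h0 h1) h2 (norm_nonneg _) ((norm_nonneg _).trans (hC i z h0 h1))

end general

/-! ### The example: the `2 × 2` matrices -/

open scoped Matrix.Norms.L2Operator

/-- the `2 × 2` matrices, with the operator norm -/
abbrev Mat := Matrix (Fin 2) (Fin 2) ℂ

noncomputable def jmul : Mat →L[ℂ] Mat →L[ℂ] Mat :=
  (1 / 2 : ℂ) • (ContinuousLinearMap.mul ℂ Mat + (ContinuousLinearMap.mul ℂ Mat).flip)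

theorem jmul_apply (x y : Mat) : jmul x y = (1 / 2 : ℂ) • (x * y + y * x) := by
  simp [jmul]

/-- the entries, as continuous linear functionals -/
noncomputable def ent (j k : Fin 2) : StrongDual ℂ Mat :=
  LinearMap.toContinuousLinearMap (Matrix.entryLinearMap ℂ ℂ j k)

theorem ent_apply (j k : Fin 2) (x : Mat) : ent j k x = x j k := rfl

theorem sum_ent (ξ : StrongDual ℂ Mat) :
    ξ = ∑ j, ∑ k, ξ (Matrix.single j k 1) • ent j k := by
  ext x
  conv_lhs => rw [matrix_eq_sum_single x]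
  simp only [map_sum, _root_.sum_apply, _root_.smul_apply, ent_apply,
    smul_eq_mul]
  refine Finset.sum_congr rfl fun j _ => Finset.sum_congr rfl fun k _ => ?_
  have : Matrix.single j k (x j k) = x j k • Matrix.single j k (1 : ℂ) := by
    rw [smul_single, smul_eq_mul, mul_one]
  rw [this, map_smul, smul_eq_mul, mul_comm]

theorem exists_eval_mat (Λ : StrongDual ℂ (⊤ : Submodule ℂ (StrongDual ℂ Mat))) :
    ∃ x : Mat, ∀ ξ : (⊤ : Submodule ℂ (StrongDual ℂ Mat)), Λ ξ = (ξ : StrongDual ℂ Mat) x := by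
  refine ⟨∑ j, ∑ k, Λ ⟨ent j k, trivial⟩ • Matrix.single j k 1, fun ξ => ?_⟩
  have h : ξ = ∑ j, ∑ k, (ξ : StrongDual ℂ Mat) (Matrix.single j k 1) •
      (⟨ent j k, trivial⟩ : (⊤ : Submodule ℂ (StrongDual ℂ Mat))) := by
    apply Subtype.ext
    conv_lhs => rw [sum_ent ξ]
    simp
  conv_lhs => rw [h]
  simp only [map_sum, map_smul, smul_eq_mul]
  refine Finset.sum_congr rfl fun j _ => Finset.sum_congr rfl fun k _ => ?_
  rw [mul_comm]

theorem norm_jmul_le (x y : Mat) : ‖jmul x y‖ ≤ ‖x‖ * ‖y‖ := by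
  rw [jmul_apply, norm_smul]
  have h1 : ‖x * y + y * x‖ ≤ ‖x‖ * ‖y‖ + ‖y‖ * ‖x‖ :=
    (norm_add_le _ _).trans (add_le_add (norm_mul_le _ _) (norm_mul_le _ _))
  have h2 : ‖(1 / 2 : ℂ)‖ = 1 / 2 := by simp
  rw [h2]
  linarith

theorem jmul_jordan (x y : Mat) :
    jmul x (jmul (jmul x x) y) = jmul (jmul x x) (jmul x y) := by
  simp only [jmul_apply, smul_add, mul_add, add_mul, smul_mul_assoc, mul_smul_comm, mul_assoc,
    smul_smul]
  module

theorem jmul_triple (x : Mat) :
    jmul (jmul x xᴴ) x + jmul (jmul xᴴ x) x - jmul (jmul x x) xᴴ = x * xᴴ * x := by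
  simp only [jmul_apply, smul_add, mul_add, add_mul, smul_mul_assoc, mul_smul_comm, mul_assoc,
    smul_smul]
  module

theorem norm_triple (x : Mat) : ‖x * xᴴ * x‖ = ‖x‖ ^ 3 := by
  apply le_antisymm
  · calc ‖x * xᴴ * x‖ ≤ ‖x‖ * ‖xᴴ‖ * ‖x‖ :=
        (norm_mul_le _ _).trans (mul_le_mul_of_nonneg_right (norm_mul_le _ _) (norm_nonneg _))
      _ = ‖x‖ ^ 3 := by rw [l2_opNorm_conjTranspose]; ring
  · by_cases h0 : ‖x‖ = 0
    · rw [h0]; simp
    have hpos : 0 < ‖x‖ := lt_of_le_of_ne (norm_nonneg _) (Ne.symm h0)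
    have h1 : ‖xᴴ * x‖ = ‖x‖ * ‖x‖ := l2_opNorm_conjTranspose_mul_self x
    have h2 : ‖(xᴴ * x) * (xᴴ * x)‖ = ‖x‖ ^ 4 := by
      have := l2_opNorm_conjTranspose_mul_self (xᴴ * x)
      rw [conjTranspose_mul, conjTranspose_conjTranspose, h1] at this
      rw [this]; ring
    have h3 : ‖(xᴴ * x) * (xᴴ * x)‖ ≤ ‖x‖ * ‖x * xᴴ * x‖ := by
      have : (xᴴ * x) * (xᴴ * x) = xᴴ * (x * xᴴ * x) := by simp only [mul_assoc]
      rw [this]
      refine (norm_mul_le _ _).trans ?_
      rw [l2_opNorm_conjTranspose]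
    rw [h2] at h3
    have h4 : ‖x‖ * ‖x‖ ^ 3 ≤ ‖x‖ * ‖x * xᴴ * x‖ := by
      calc ‖x‖ * ‖x‖ ^ 3 = ‖x‖ ^ 4 := by ring
        _ ≤ _ := h3
    exact le_of_mul_le_mul_left h4 hpos

/-- The JBW*-algebra of `2 × 2` matrices: the operator norm, the Jordan product
`x ∘ y = (xy + yx) / 2`, the conjugate transpose as involution. -/
noncomputable abbrev M2 : JBWStarAlgebra where
  M := Mat
  mul := fun x y => jmul x y
  inv := fun x => xᴴ
  one := 1
  isJordan :=
    { mul_add := fun x y z => map_add _ _ _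
      mul_smul := fun c x y => map_smul _ _ _
      mul_comm := fun x y => by
        rw [jmul_apply, jmul_apply, add_comm]
      jordan := jmul_jordan
      one_mul := fun x => by
        rw [jmul_apply, one_mul, mul_one]
        module }
  isInvolution :=
    { inv_inv := fun x => conjTranspose_conjTranspose x
      inv_add := fun x y => conjTranspose_add x y
      inv_smul := fun c x => conjTranspose_smul c x
      inv_mul := fun x y => by
        change (jmul x y)ᴴ = jmul xᴴ yᴴ
        simp only [jmul_apply, conjTranspose_smul, conjTranspose_add, conjTranspose_mul]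
        simp [add_comm] }
  isJBNorm :=
    { norm_mul_le := norm_jmul_le
      norm_inv := fun x => l2_opNorm_conjTranspose x
      norm_triple := fun x => by
        change ‖jmul (jmul x xᴴ) x + jmul (jmul xᴴ x) x - jmul (jmul x x) xᴴ‖ = _
        rw [jmul_triple, norm_triple] }
  predual := ⊤
  isPredual :=
    { isClosed := isClosed_univ
      norm_le := fun x C hC h => NormedSpace.norm_le_dual_bound ℂ x hC fun ξ => h ξ trivial
      exists_eval := exists_eval_mat }

/-! ### weights -/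

/-- the diagonal entries of the density of the state -/
structure Wt (d : Fin 2 → ℝ) : Prop where
  pos : ∀ i, 0 < d i
  sum : d 0 + d 1 = 1

noncomputable def phi (d : Fin 2 → ℝ) : StrongDual ℂ Mat :=
  (d 0 : ℂ) • ent 0 0 + (d 1 : ℂ) • ent 1 1

theorem phi_apply (d : Fin 2 → ℝ) (x : Mat) : phi d x = d 0 * x 0 0 + d 1 * x 1 1 := by
  simp [phi, ent_apply]

noncomputable def embM (d : Fin 2 → ℝ) (x : Mat) : StrongDual ℂ Mat := (phi d).comp (jmul x)

/-- the means of the weights -/
noncomputable def mn (d : Fin 2 → ℝ) (j k : Fin 2) : ℝ := (d j + d k) / 2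

theorem embM_apply (d : Fin 2 → ℝ) (x y : Mat) :
    embM d x y = ∑ j, ∑ k, (mn d j k : ℂ) * x j k * y k j := by
  simp only [embM, ContinuousLinearMap.comp_apply, phi_apply, jmul_apply, mn, Matrix.smul_apply,
    Matrix.add_apply, Matrix.mul_apply, Fin.sum_univ_two, smul_eq_mul]
  push_cast
  ring

theorem mn_pos {d : Fin 2 → ℝ} (hd : Wt d) (j k : Fin 2) : 0 < mn d j k := by
  have := hd.pos j
  have := hd.pos k
  unfold mn
  positivity

/-- coordinates of a functional -/
noncomputable def co (d : Fin 2 → ℝ) (η : StrongDual ℂ Mat) : Mat :=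
  Matrix.of fun j k => (mn d j k : ℂ)⁻¹ * η (single k j 1)

theorem dual_ext {η ξ : StrongDual ℂ Mat} (h : ∀ j k, η (single j k 1) = ξ (single j k 1)) :
    η = ξ := by
  rw [sum_ent η, sum_ent ξ]
  simp only [h]

theorem embM_single (d : Fin 2 → ℝ) (x : Mat) (j k : Fin 2) :
    embM d x (single k j 1) = (mn d j k : ℂ) * x j k := by
  rw [embM_apply]
  fin_cases j <;> fin_cases k <;> simp [Fin.sum_univ_two, Matrix.single_apply]

theorem co_embM {d : Fin 2 → ℝ} (hd : Wt d) (x : Mat) : co d (embM d x) = x := by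
  ext j k
  have : (mn d j k : ℂ) ≠ 0 := by exact_mod_cast (mn_pos hd j k).ne'
  simp only [co, of_apply, embM_single]
  field_simp

theorem embM_co {d : Fin 2 → ℝ} (hd : Wt d) (η : StrongDual ℂ Mat) : embM d (co d η) = η := by
  refine dual_ext fun j k => ?_
  have : (mn d k j : ℂ) ≠ 0 := by exact_mod_cast (mn_pos hd k j).ne'
  rw [embM_single]
  simp only [co, of_apply]
  field_simp

theorem embM_add (d : Fin 2 → ℝ) (x y : Mat) : embM d (x + y) = embM d x + embM d y := by
  ext z
  simp [embM]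

theorem embM_smul (d : Fin 2 → ℝ) (c : ℂ) (x : Mat) : embM d (c • x) = c • embM d x := by
  ext z
  simp [embM]

/-! ### norms of matrices -/

theorem norm_single_le (j k : Fin 2) : ‖(single j k 1 : Mat)‖ ≤ 1 := by
  have h1 := l2_opNorm_conjTranspose_mul_self (single j k 1 : Mat)
  have h2 : (single j k 1 : Mat)ᴴ * (single j k 1 : Mat) = diagonal (Pi.single k 1) := by
    ext a b
    fin_cases j <;> fin_cases k <;> fin_cases a <;> fin_cases b <;>
      simp [mul_apply, Matrix.single_apply]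
  rw [h2, l2_opNorm_diagonal] at h1
  have h3 : ‖(Pi.single k 1 : Fin 2 → ℂ)‖ ≤ 1 := by
    rw [pi_norm_le_iff_of_nonneg zero_le_one]
    intro i
    by_cases h : i = k
    · subst h; simp
    · simp [h]
  nlinarith [norm_nonneg (single j k 1 : Mat)]

theorem norm_entry_le (x : Mat) (j k : Fin 2) : ‖x j k‖ ≤ ‖x‖ := by
  have h1 := l2_opNorm_mulVec x (WithLp.toLp 2 (Pi.single k 1))
  have h2 : ‖(WithLp.toLp 2 (Pi.single k 1) : EuclideanSpace ℂ (Fin 2))‖ = 1 := by
    simp
  rw [h2, mul_one] at h1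
  refine le_trans ?_ h1
  have h3 := PiLp.norm_apply_le (p := 2) ((EuclideanSpace.equiv (Fin 2) ℂ).symm <| x *ᵥ (Pi.single k 1)) j
  simpa using h3

/-! ### The states on `M_2` -/

/-- the state with density `diag (d 0, d 1)` -/
noncomputable def st {d : Fin 2 → ℝ} (hd : Wt d) : NormalFaithfulState M2 where
  φ := phi d
  normal := trivial
  map_one := by
    rw [phi_apply]
    have := hd.sum
    simp only [one_apply_eq, mul_one]
    exact_mod_cast this
  faithful := by
    intro a ha ha0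
    have ha' : aᴴ = a := ha
    change 0 < (phi d (jmul a a)).re ∧ (phi d (jmul a a)).im = 0
    have h1 : phi d (jmul a a) = ((d 0 * (‖a 0 0‖ ^ 2 + ‖a 0 1‖ ^ 2) +
        d 1 * (‖a 1 0‖ ^ 2 + ‖a 1 1‖ ^ 2) : ℝ) : ℂ) := by
      have h2 : ∀ j k, a j k = (starRingEnd ℂ) (a k j) := fun j k => by
        conv_lhs => rw [← ha']
        rfl
      rw [phi_apply, jmul_apply]
      simp only [Matrix.smul_apply, Matrix.add_apply, Matrix.mul_apply, Fin.sum_univ_two,
        smul_eq_mul]
      have e0 : a 0 0 * a 0 0 = ((‖a 0 0‖ ^ 2 : ℝ) : ℂ) := by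
        rw [← Complex.normSq_eq_norm_sq, Complex.normSq_eq_conj_mul_self, ← h2 0 0]
      have e1 : a 0 1 * a 1 0 = ((‖a 0 1‖ ^ 2 : ℝ) : ℂ) := by
        rw [← Complex.normSq_eq_norm_sq, Complex.normSq_eq_conj_mul_self, ← h2 1 0, mul_comm]
      have e2 : a 1 0 * a 0 1 = ((‖a 1 0‖ ^ 2 : ℝ) : ℂ) := by
        rw [← Complex.normSq_eq_norm_sq, Complex.normSq_eq_conj_mul_self, ← h2 0 1, mul_comm]
      have e3 : a 1 1 * a 1 1 = ((‖a 1 1‖ ^ 2 : ℝ) : ℂ) := by
        rw [← Complex.normSq_eq_norm_sq, Complex.normSq_eq_conj_mul_self, ← h2 1 1]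
      rw [e0, e1, e2, e3]
      push_cast
      ring
    rw [h1, Complex.ofReal_re, Complex.ofReal_im]
    refine ⟨?_, rfl⟩
    have hd0 := hd.pos 0
    have hd1 := hd.pos 1
    by_contra hcon
    push Not at hcon
    apply ha0
    change (a : Mat) = (0 : Mat)
    have q0 : 0 ≤ d 0 * ‖a 0 0‖ ^ 2 := by positivity
    have q1 : 0 ≤ d 0 * ‖a 0 1‖ ^ 2 := by positivity
    have q2 : 0 ≤ d 1 * ‖a 1 0‖ ^ 2 := by positivity
    have q3 : 0 ≤ d 1 * ‖a 1 1‖ ^ 2 := by positivity
    have z0 : d 0 * ‖a 0 0‖ ^ 2 = 0 := by nlinarith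
    have z1 : d 0 * ‖a 0 1‖ ^ 2 = 0 := by nlinarith
    have z2 : d 1 * ‖a 1 0‖ ^ 2 = 0 := by nlinarith
    have z3 : d 1 * ‖a 1 1‖ ^ 2 = 0 := by nlinarith
    simp only [mul_eq_zero, hd0.ne', hd1.ne', false_or, pow_eq_zero_iff, ne_eq,
      OfNat.ofNat_ne_zero, not_false_eq_true, norm_eq_zero] at z0 z1 z2 z3
    ext j k
    fin_cases j <;> fin_cases k <;> simp [z0, z1, z2, z3]

section M2

variable {d : Fin 2 → ℝ} (hd : Wt d)

theorem st_emb (x : Mat) : (st hd).emb x = embM d x := rfl

theorem hmem (x : M2.M) : (st hd).emb x ∈ M2.predual := trivial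

theorem M_zero : N (st hd) (0 : Mat) = 0 := N_zero (hmem hd)

theorem M_smul (c : ℂ) (x : Mat) : N (st hd) (c • x : Mat) = ‖c‖ * N (st hd) x :=
  N_smul (hmem hd) c x

theorem M_add_le (x y : Mat) : N (st hd) (x + y : Mat) ≤ N (st hd) x + N (st hd) y :=
  N_add_le (hmem hd) x y

theorem M_neg (x : Mat) : N (st hd) (-x : Mat) = N (st hd) x := by
  have := M_smul hd (-1) x
  simpa using this

theorem embM_norm_single (j k : Fin 2) (hd : Wt d) : ‖embM d (single j k 1)‖ ≤ mn d j k := by
  refine ContinuousLinearMap.opNorm_le_bound _ (mn_pos hd j k).le fun y => ?_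
  have h : embM d (single j k 1) y = (mn d j k : ℂ) * y k j := by
    rw [embM_apply]
    fin_cases j <;> fin_cases k <;> simp [Fin.sum_univ_two, Matrix.single_apply]
  rw [h, norm_mul, Complex.norm_real, Real.norm_of_nonneg (mn_pos hd j k).le]
  exact mul_le_mul_of_nonneg_left (norm_entry_le y k j) (mn_pos hd j k).le

theorem N_single (j k : Fin 2) :
    N (st hd) (single j k 1 : Mat) ≤ Real.exp (Real.log (mn d j k) / 4) := by
  set m := mn d j k with hm
  have hmpos : 0 < m := mn_pos hd j k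
  have key := adm_of (φ := st hd) (ι := Unit) (hmem hd)
    (fun _ z => Complex.exp (-(z - 1 / 4) * Real.log m)) (fun _ => (single j k 1 : Mat))
    (R := Real.exp (Real.log m / 4)) (fun _ => by fun_prop) ?_ ?_ ?_
  · refine N_le key ?_
    simp
  · refine fun _ => ⟨Real.exp (|Real.log m|), fun z h0 h1 => ?_⟩
    rw [Complex.norm_exp]
    refine Real.exp_le_exp.2 ?_
    have : (-(z - 1 / 4) * (Real.log m : ℂ)).re = -(z.re - 1 / 4) * Real.log m := by
      rw [Complex.re_mul_ofReal]
      norm_num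
    rw [this]
    have h3 : |-(z.re - 1 / 4)| ≤ 1 := by rw [abs_le]; constructor <;> linarith
    calc -(z.re - 1 / 4) * Real.log m ≤ |-(z.re - 1 / 4) * Real.log m| := le_abs_self _
      _ = |-(z.re - 1 / 4)| * |Real.log m| := abs_mul _ _
      _ ≤ 1 * |Real.log m| := by gcongr
      _ = _ := one_mul _
  · intro t
    rw [Finset.sum_const, Finset.card_univ, Fintype.card_unit, one_smul, norm_smul]
    have h1 : ‖Complex.exp (-((t : ℂ) * I - 1 / 4) * Real.log m)‖ = Real.exp (Real.log m / 4) := by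
      rw [Complex.norm_exp, Complex.re_mul_ofReal]
      congr 1
      norm_num
      ring
    rw [h1]
    calc _ ≤ Real.exp (Real.log m / 4) * 1 :=
          mul_le_mul_of_nonneg_left (norm_single_le j k) (Real.exp_pos _).le
      _ = _ := mul_one _
  · intro t
    rw [Finset.sum_const, Finset.card_univ, Fintype.card_unit, one_smul, emb_smul, norm_smul]
    have h1 : ‖Complex.exp (-((1 : ℂ) + (t : ℂ) * I - 1 / 4) * Real.log m)‖ =
        Real.exp (Real.log m / 4) * m⁻¹ := by
      rw [Complex.norm_exp, Complex.re_mul_ofReal, ← Real.exp_log (inv_pos.2 hmpos), ← Real.exp_add,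
        Real.log_inv]
      congr 1
      norm_num
      ring
    rw [h1, st_emb]
    calc _ ≤ Real.exp (Real.log m / 4) * m⁻¹ * m :=
          mul_le_mul_of_nonneg_left (embM_norm_single j k hd) (by positivity)
      _ = _ := by field_simp

/-- entire functions with prescribed modulus -/
noncomputable def ha (a : ℂ) (z : ℂ) : ℂ := a * Complex.exp ((4 * z - 1) * Real.log ‖a‖)

theorem ha_quarter (a : ℂ) : ha a (1 / 4) = a := by simp [ha]

theorem ha_diff (a : ℂ) : Differentiable ℂ (ha a) := by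
  unfold ha
  fun_prop

theorem norm_ha (a z : ℂ) : ‖ha a z‖ = ‖a‖ * Real.exp ((4 * z.re - 1) * Real.log ‖a‖) := by
  rw [ha, norm_mul, Complex.norm_exp, Complex.re_mul_ofReal]
  norm_num

theorem norm_ha_zero (a : ℂ) {z : ℂ} (hz : z.re = 0) : ‖ha a z‖ ≤ 1 := by
  rw [norm_ha, hz]
  by_cases h : a = 0
  · simp [h]
  · have h1 : 0 < ‖a‖ := norm_pos_iff.2 h
    have : (4 * (0 : ℝ) - 1) * Real.log ‖a‖ = Real.log ‖a‖⁻¹ := by rw [Real.log_inv]; ring
    rw [this, Real.exp_log (by positivity)]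
    exact (mul_inv_cancel₀ h1.ne').le

theorem norm_ha_one (a : ℂ) {z : ℂ} (hz : z.re = 1) : ‖ha a z‖ ≤ ‖a‖ ^ 4 := by
  rw [norm_ha, hz]
  by_cases h : a = 0
  · simp [h]
  · have h1 : 0 < ‖a‖ := norm_pos_iff.2 h
    have : (4 * (1 : ℝ) - 1) * Real.log ‖a‖ = Real.log (‖a‖ ^ 3) := by
      rw [Real.log_pow]; norm_num
    rw [this, Real.exp_log (by positivity)]
    exact le_of_eq (by ring)

theorem ha_bdd (a : ℂ) : ∃ C, ∀ z : ℂ, 0 ≤ z.re → z.re ≤ 1 → ‖ha a z‖ ≤ C := by
  refine ⟨‖a‖ * Real.exp (3 * |Real.log ‖a‖|), fun z h0 h1 => ?_⟩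
  rw [norm_ha]
  refine mul_le_mul_of_nonneg_left (Real.exp_le_exp.2 ?_) (norm_nonneg a)
  have h3 : |4 * z.re - 1| ≤ 3 := by rw [abs_le]; constructor <;> linarith
  calc (4 * z.re - 1) * Real.log ‖a‖ ≤ |(4 * z.re - 1) * Real.log ‖a‖| := le_abs_self _
    _ = |4 * z.re - 1| * |Real.log ‖a‖| := abs_mul _ _
    _ ≤ 3 * |Real.log ‖a‖| := by gcongr

theorem ha_one_sub_bdd (a : ℂ) :
    ∃ C, ∀ z : ℂ, 0 ≤ z.re → z.re ≤ 1 → ‖ha a (1 - z)‖ ≤ C := by
  obtain ⟨C, hC⟩ := ha_bdd a
  exact ⟨C, fun z h0 h1 => hC _ (by simp only [sub_re, one_re]; linarith)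
    (by simp only [sub_re, one_re]; linarith)⟩

theorem ha_three_quarter (a : ℂ) : a * ha ((starRingEnd ℂ) a) (1 - 1 / 4) = ((‖a‖ ^ 4 : ℝ) : ℂ) := by
  by_cases h : a = 0
  · simp [h]
  · have h1 : 0 < ‖a‖ := norm_pos_iff.2 h
    have h2 : Complex.exp ((4 * (1 - 1 / 4) - 1) * Real.log ‖a‖) = ((‖a‖ ^ 2 : ℝ) : ℂ) := by
      have h3 : ((4 * (1 - 1 / 4) - 1) * Real.log ‖a‖ : ℂ) = ((Real.log (‖a‖ ^ 2) : ℝ) : ℂ) := by
        rw [Real.log_pow]
        push_cast
        ring
      rw [h3, ← Complex.ofReal_exp, Real.exp_log (by positivity)]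
    rw [ha, RCLike.norm_conj, h2, ← mul_assoc, Complex.mul_conj, Complex.normSq_eq_norm_sq]
    push_cast
    ring

/-- diagonal matrices as combinations of matrix units -/
theorem diag_eq (a b : ℂ) : ∑ i : Fin 2, ![a, b] i • (single i i 1 : Mat) = diagonal ![a, b] := by
  ext j k
  fin_cases j <;> fin_cases k <;> simp [Fin.sum_univ_two]

theorem embM_diag (x : Mat) (a b : ℂ) :
    embM d x (diagonal ![a, b]) = d 0 * x 0 0 * a + d 1 * x 1 1 * b := by
  rw [embM_apply]
  simp [Fin.sum_univ_two, mn]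

theorem embM_diag_left (y : Mat) (a b : ℂ) :
    embM d (diagonal ![a, b]) y = d 0 * a * y 0 0 + d 1 * b * y 1 1 := by
  rw [embM_apply]
  simp [Fin.sum_univ_two, mn]

theorem norm_diag_le {a b : ℂ} {C : ℝ} (ha : ‖a‖ ≤ C) (hb : ‖b‖ ≤ C) :
    ‖(diagonal ![a, b] : Mat)‖ ≤ C := by
  rw [l2_opNorm_diagonal, pi_norm_le_iff_of_nonneg ((norm_nonneg _).trans ha)]
  intro i
  fin_cases i <;> simp [ha, hb]

theorem embM_diag_norm_le (hd : Wt d) (a b : ℂ) :
    ‖embM d (diagonal ![a, b])‖ ≤ d 0 * ‖a‖ + d 1 * ‖b‖ := by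
  have h0 := (hd.pos 0).le
  have h1 := (hd.pos 1).le
  refine ContinuousLinearMap.opNorm_le_bound _ (by positivity) fun y => ?_
  rw [embM_diag_left]
  refine (norm_add_le _ _).trans ?_
  rw [norm_mul, norm_mul, norm_mul, norm_mul, Complex.norm_real, Complex.norm_real,
    Real.norm_of_nonneg h0, Real.norm_of_nonneg h1, add_mul]
  gcongr
  · exact norm_entry_le y 0 0
  · exact norm_entry_le y 1 1

theorem N_diag_one {a b : ℂ} (hab : d 0 * ‖a‖ ^ 4 + d 1 * ‖b‖ ^ 4 = 1) :
    N (st hd) (diagonal ![a, b] : Mat) = 1 := by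
  have hd0 := (hd.pos 0).le
  have hd1 := (hd.pos 1).le
  apply le_antisymm
  · have key := adm_of (φ := st hd) (ι := Fin 2) (hmem hd)
      (fun i => ha (![a, b] i)) (fun i => (single i i 1 : Mat)) (R := 1)
      (fun i => ha_diff _) (fun i => ha_bdd _) ?_ ?_
    · refine N_le key ?_
      simp only [ha_quarter]
      rw [diag_eq]
    · intro t
      have hre : ((t : ℂ) * I).re = 0 := by simp
      have := diag_eq (ha a (t * I)) (ha b (t * I))
      have h2 : (∑ i : Fin 2, ha (![a, b] i) (t * I) • (single i i 1 : Mat)) =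
          diagonal ![ha a (t * I), ha b (t * I)] := by
        rw [← this]
        simp [Fin.sum_univ_two]
      change ‖(∑ i : Fin 2, ha (![a, b] i) (t * I) • (single i i 1 : Mat))‖ ≤ 1
      rw [h2]
      exact norm_diag_le (norm_ha_zero a hre) (norm_ha_zero b hre)
    · intro t
      have hre : ((1 : ℂ) + (t : ℂ) * I).re = 1 := by simp
      have := diag_eq (ha a (1 + t * I)) (ha b (1 + t * I))
      have h2 : (∑ i : Fin 2, ha (![a, b] i) (1 + t * I) • (single i i 1 : Mat)) =
          diagonal ![ha a (1 + t * I), ha b (1 + t * I)] := by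
        rw [← this]
        simp [Fin.sum_univ_two]
      change ‖embM d (∑ i : Fin 2, ha (![a, b] i) (1 + t * I) • (single i i 1 : Mat))‖ ≤ 1
      rw [h2]
      refine (embM_diag_norm_le hd _ _).trans ?_
      rw [← hab]
      gcongr
      · exact norm_ha_one a hre
      · exact norm_ha_one b hre
  · refine le_N (hmem hd) fun f R hf hfx => ?_
    have hR := hf.nonneg
    obtain ⟨hc, hdf, hb⟩ := hf.scalar (ι := Fin 2)
      (fun i z => ha ((starRingEnd ℂ) (![a, b] i)) (1 - z)) (fun i => (single i i 1 : Mat))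
      (fun i => (ha_diff _).comp (by fun_prop)) (fun i => ha_one_sub_bdd _)
    have hsum : ∀ z, ∑ i : Fin 2, ha ((starRingEnd ℂ) (![a, b] i)) (1 - z) *
        f z (single i i 1 : Mat) = f z (diagonal ![ha ((starRingEnd ℂ) a) (1 - z),
          ha ((starRingEnd ℂ) b) (1 - z)] : Mat) := by
      intro z
      rw [← diag_eq, map_sum]
      refine Finset.sum_congr rfl fun i _ => ?_
      rw [map_smul, smul_eq_mul]
      fin_cases i <;> rfl
    have hval : ∑ i : Fin 2, ha ((starRingEnd ℂ) (![a, b] i)) (1 - 1 / 4) *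
        f (1 / 4) (single i i 1 : Mat) = 1 := by
      rw [hsum, hfx, st_emb, embM_diag]
      simp only [diagonal_apply_eq, Matrix.cons_val_zero, Matrix.cons_val_one]
      rw [mul_assoc, ha_three_quarter, mul_assoc, ha_three_quarter]
      exact_mod_cast hab
    have hle := strip_le hR hc hdf hb ?_ ?_ (z := 1 / 4) (by norm_num) (by norm_num)
    · rw [hval, norm_one] at hle
      exact hle
    · intro t
      have hre : (1 - (t : ℂ) * I).re = 1 := by simp
      rw [hsum]
      obtain ⟨g, hg, hgf⟩ := hf.left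
      rw [(hgf t).1, st_emb, embM_diag]
      refine (norm_add_le _ _).trans ?_
      rw [norm_mul, norm_mul, norm_mul, norm_mul, Complex.norm_real, Complex.norm_real,
        Real.norm_of_nonneg hd0, Real.norm_of_nonneg hd1]
      have e0 : ‖(g t : Mat) 0 0‖ ≤ R := (norm_entry_le (g t) 0 0).trans (hgf t).2
      have e1 : ‖(g t : Mat) 1 1‖ ≤ R := (norm_entry_le (g t) 1 1).trans (hgf t).2
      have k0 := norm_ha_one ((starRingEnd ℂ) a) hre
      have k1 := norm_ha_one ((starRingEnd ℂ) b) hre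
      rw [RCLike.norm_conj] at k0 k1
      calc _ ≤ d 0 * R * ‖a‖ ^ 4 + d 1 * R * ‖b‖ ^ 4 := by gcongr
        _ = R * (d 0 * ‖a‖ ^ 4 + d 1 * ‖b‖ ^ 4) := by ring
        _ = R := by rw [hab, mul_one]
    · intro t
      have hre : (1 - (1 + (t : ℂ) * I)).re = 0 := by simp
      rw [hsum]
      refine ((f _).le_opNorm _).trans ?_
      calc _ ≤ R * 1 := by
            gcongr
            · exact hf.right t
            · exact norm_diag_le (norm_ha_zero _ hre) (norm_ha_zero _ hre)
        _ = R := mul_one R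

theorem N_diag (a b : ℂ) :
    N (st hd) (diagonal ![a, b] : Mat) ^ 4 = d 0 * ‖a‖ ^ 4 + d 1 * ‖b‖ ^ 4 := by
  have hd0 := hd.pos 0
  have hd1 := hd.pos 1
  set q := d 0 * ‖a‖ ^ 4 + d 1 * ‖b‖ ^ 4 with hq
  have hq0 : 0 ≤ q := by positivity
  rcases hq0.eq_or_lt with h | h
  · have h0 : 0 ≤ d 0 * ‖a‖ ^ 4 := by positivity
    have h1 : 0 ≤ d 1 * ‖b‖ ^ 4 := by positivity
    have ha : d 0 * ‖a‖ ^ 4 = 0 := by linarith
    have hb : d 1 * ‖b‖ ^ 4 = 0 := by linarith
    simp only [mul_eq_zero, hd0.ne', hd1.ne', false_or, pow_eq_zero_iff, ne_eq,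
      OfNat.ofNat_ne_zero, not_false_eq_true, norm_eq_zero] at ha hb
    have : (diagonal ![a, b] : Mat) = 0 := by
      rw [ha, hb]
      ext j k
      fin_cases j <;> fin_cases k <;> simp
    rw [this, ← h]
    rw [M_zero]
    norm_num
  · -- normalise
    obtain ⟨r, hr, hrq⟩ : ∃ r : ℝ, 0 < r ∧ r ^ 4 = q := by
      refine ⟨q ^ (1 / 4 : ℝ), by positivity, ?_⟩
      rw [← Real.rpow_natCast, ← Real.rpow_mul h.le]
      norm_num
    have h1 := N_diag_one hd (a := (r⁻¹ : ℝ) * a) (b := (r⁻¹ : ℝ) * b) (by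
      rw [norm_mul, norm_mul, Complex.norm_real, Real.norm_of_nonneg (by positivity), mul_pow,
        mul_pow]
      calc _ = (r ^ 4)⁻¹ * q := by rw [hq, inv_pow]; ring
        _ = 1 := by rw [hrq]; exact inv_mul_cancel₀ h.ne')
    have h2 : (diagonal ![a, b] : Mat) = (r : ℂ) • (diagonal ![(r⁻¹ : ℝ) * a, (r⁻¹ : ℝ) * b] : Mat) := by
      have : (r : ℂ) ≠ 0 := by exact_mod_cast hr.ne'
      ext j k
      fin_cases j <;> fin_cases k <;> simp [this]
    rw [h2, M_smul, h1, mul_one, Complex.norm_real, Real.norm_of_nonneg hr.le, hrq]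

/-- multiplication by unitary matrices on both sides -/
noncomputable def conjL (U V : Mat) : Mat →L[ℂ] Mat :=
  (ContinuousLinearMap.mul ℂ Mat U).comp ((ContinuousLinearMap.mul ℂ Mat).flip V)

theorem conjL_apply (U V x : Mat) : conjL U V x = U * (x * V) := rfl

theorem norm_conjL (U V : unitary Mat) (x : Mat) : ‖conjL (U : Mat) (V : Mat) x‖ = ‖x‖ := by
  rw [conjL_apply, CStarRing.norm_coe_unitary_mul, CStarRing.norm_mul_coe_unitary]

theorem M_conj_le (U V : unitary Mat)
    (h : ∀ x y : Mat, embM d (U * (x * V)) y = embM d x (V * (y * U))) (x : Mat) :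
    N (st hd) (U * (x * V) : Mat) ≤ N (st hd) x :=
  N_transfer (J := M2) (φ := st hd) rfl (conjL (U : Mat) (V : Mat)) (conjL (V : Mat) (U : Mat))
    (fun x => (norm_conjL U V x).le) (fun x => (norm_conjL V U x).le) h x

theorem M_conj (U V : unitary Mat)
    (h : ∀ x y : Mat, embM d (U * (x * V)) y = embM d x (V * (y * U)))
    (h' : ∀ x y : Mat, embM d ((star U : unitary Mat) * (x * (star V : unitary Mat))) y =
      embM d x ((star V : unitary Mat) * (y * (star U : unitary Mat)))) (x : Mat) :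
    N (st hd) (U * (x * V) : Mat) = N (st hd) x := by
  refine le_antisymm (M_conj_le hd U V h x) ?_
  have := M_conj_le hd (star U) (star V) h' (U * (x * V))
  have h2 : ((star U : unitary Mat) : Mat) * ((U * (x * V)) * ((star V : unitary Mat) : Mat)) = x := by
    have e1 : ((star U : unitary Mat) : Mat) * (U : Mat) = 1 := Unitary.coe_star_mul_self U
    have e2 : (V : Mat) * ((star V : unitary Mat) : Mat) = 1 := Unitary.coe_mul_star_self V
    calc _ = (((star U : unitary Mat) : Mat) * U) * x * (V * ((star V : unitary Mat) : Mat)) := by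
          simp only [mul_assoc]
      _ = x := by rw [e1, e2, one_mul, mul_one]
  rwa [h2] at this

/-- diagonal unitary matrices commute with the density -/
theorem embM_diag_conj (u v : Fin 2 → ℂ) (x y : Mat) :
    embM d (diagonal u * (x * diagonal v)) y = embM d x (diagonal v * (y * diagonal u)) := by
  simp only [embM_apply, diagonal_mul, mul_diagonal]
  refine Finset.sum_congr rfl fun j _ => Finset.sum_congr rfl fun k _ => ?_
  ring

theorem diagonal_mem_unitary {u : Fin 2 → ℂ} (hu : ∀ i, ‖u i‖ = 1) :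
    (diagonal u : Mat) ∈ unitary Mat := by
  have h : ∀ i, (starRingEnd ℂ) (u i) * u i = 1 := fun i => by
    rw [← Complex.normSq_eq_conj_mul_self, Complex.normSq_eq_norm_sq, hu i]
    simp
  rw [Unitary.mem_iff]
  constructor
  · rw [star_eq_conjTranspose, diagonal_conjTranspose, diagonal_mul_diagonal]
    rw [← diagonal_one]
    congr 1
    funext i
    exact h i
  · rw [star_eq_conjTranspose, diagonal_conjTranspose, diagonal_mul_diagonal]
    rw [← diagonal_one]
    congr 1
    funext i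
    rw [mul_comm]
    exact h i

theorem M_diag_conj {u v : Fin 2 → ℂ} (hu : ∀ i, ‖u i‖ = 1) (hv : ∀ i, ‖v i‖ = 1) (x : Mat) :
    N (st hd) (diagonal u * (x * diagonal v) : Mat) = N (st hd) x := by
  refine M_conj hd ⟨diagonal u, diagonal_mem_unitary hu⟩ ⟨diagonal v, diagonal_mem_unitary hv⟩
    (embM_diag_conj u v) ?_ x
  intro x y
  change embM d ((diagonal u : Mat)ᴴ * (x * (diagonal v : Mat)ᴴ)) y =
    embM d x ((diagonal v : Mat)ᴴ * (y * (diagonal u : Mat)ᴴ))
  rw [diagonal_conjTranspose, diagonal_conjTranspose]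
  exact embM_diag_conj _ _ x y

/-- multiplication of the off-diagonal entries by a scalar -/
def rot (c : ℂ) (x : Mat) : Mat := Matrix.of fun j k => if j = k then x j k else c * x j k

theorem M_sum_le (c : Fin 2 → Fin 2 → ℂ) :
    N (st hd) (∑ j, ∑ k, c j k • (single j k 1 : Mat) : Mat) ≤
      ∑ j, ∑ k, ‖c j k‖ * Real.exp (Real.log (mn d j k) / 4) := by
  have h1 : ∀ j k, N (st hd) (c j k • (single j k 1 : Mat) : Mat) ≤
      ‖c j k‖ * Real.exp (Real.log (mn d j k) / 4) := fun j k => by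
    rw [M_smul]
    exact mul_le_mul_of_nonneg_left (N_single hd j k) (norm_nonneg _)
  simp only [Fin.sum_univ_two]
  refine (M_add_le hd _ _).trans (add_le_add ?_ ?_)
  · exact (M_add_le hd _ _).trans (add_le_add (h1 _ _) (h1 _ _))
  · exact (M_add_le hd _ _).trans (add_le_add (h1 _ _) (h1 _ _))

theorem sum_single (e : Mat) : ∑ j, ∑ k, e j k • (single j k 1 : Mat) = e := by
  conv_rhs => rw [matrix_eq_sum_single e]
  refine Finset.sum_congr rfl fun j _ => Finset.sum_congr rfl fun k _ => ?_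
  rw [smul_single, smul_eq_mul, mul_one]

/-- **Approximate invariance** under the rotation of the off-diagonal entries. -/
theorem shift_le (s : ℝ) (x : Mat) :
    N (st hd) (rot (Complex.exp (s * ((Real.log (d 0) + Real.log (d 1)) / 2 - Real.log (1 / 2) : ℝ) * I)) x) ≤
      (1 + 32 * |s|) * N (st hd) x := by
  set L : ℝ := (Real.log (d 0) + Real.log (d 1)) / 2 - Real.log (1 / 2) with hL
  set c : ℂ := Complex.exp (s * L * I) with hc
  refine le_of_forall_pos_le_add fun ε hε => ?_
  obtain ⟨f, hf, hfx⟩ := exists_lt (hmem hd) (x := x) (R := N (st hd) x + ε / (1 + 32 * |s|)) (by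
    have : 0 < ε / (1 + 32 * |s|) := by positivity
    linarith)
  set R := N (st hd) x + ε / (1 + 32 * |s|) with hR
  suffices h : N (st hd) (rot c x) ≤ R + 32 * |s| * R by
    refine h.trans (le_of_eq ?_)
    rw [hR]
    have : (1 + 32 * |s|) ≠ 0 := by positivity
    field_simp
  have hR0 : 0 ≤ R := hf.nonneg
  -- the scalar functions
  let h : Fin 2 → Fin 2 → ℂ → ℂ := fun j k z =>
    ∑ _i : Unit, (Complex.exp (z * Real.log (mn d j k)) * ((mn d j k)⁻¹ : ℝ)) *
      f z (single k j 1 : Mat)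
  have hsc := fun j k => hf.scalar (ι := Unit)
    (fun _ z => Complex.exp (z * Real.log (mn d j k)) * ((mn d j k)⁻¹ : ℝ))
    (fun _ => (single k j 1 : Mat)) (fun _ => by fun_prop) (by
      refine fun _ => ⟨Real.exp (|Real.log (mn d j k)|) * (mn d j k)⁻¹, fun z h0 h1 => ?_⟩
      have hm := mn_pos hd j k
      rw [norm_mul, Complex.norm_real, Real.norm_of_nonneg (inv_pos.2 hm).le, Complex.norm_exp,
        Complex.re_mul_ofReal]
      refine mul_le_mul_of_nonneg_right (Real.exp_le_exp.2 ?_) (inv_pos.2 hm).le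
      calc z.re * Real.log (mn d j k) ≤ |z.re * Real.log (mn d j k)| := le_abs_self _
        _ = |z.re| * |Real.log (mn d j k)| := abs_mul _ _
        _ ≤ 1 * |Real.log (mn d j k)| := by
          gcongr
          rw [abs_le]
          constructor <;> linarith
        _ = _ := one_mul _)
  have hbd : ∀ j k, ∀ z : ℂ, 0 ≤ z.re → z.re ≤ 1 → ‖h j k z‖ ≤ R := by
    intro j k z hz0 hz1
    have hm := mn_pos hd j k
    obtain ⟨h1, h2, h3⟩ := hsc j k
    refine strip_le hR0 h1 h2 h3 ?_ ?_ hz0 hz1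
    · intro t
      obtain ⟨g, hg, hgf⟩ := hf.left
      rw [Finset.sum_const, Finset.card_univ, Fintype.card_unit, one_smul, (hgf t).1, st_emb,
        embM_single, norm_mul, norm_mul, norm_mul, Complex.norm_real, Complex.norm_real,
        Real.norm_of_nonneg (inv_pos.2 hm).le, Real.norm_of_nonneg hm.le, Complex.norm_exp,
        Complex.re_mul_ofReal]
      have e1 : ((t : ℂ) * I).re = 0 := by simp
      rw [e1, zero_mul, Real.exp_zero, one_mul, ← mul_assoc, inv_mul_cancel₀ hm.ne', one_mul]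
      exact (norm_entry_le _ _ _).trans (hgf t).2
    · intro t
      rw [Finset.sum_const, Finset.card_univ, Fintype.card_unit, one_smul, norm_mul, norm_mul,
        Complex.norm_real, Real.norm_of_nonneg (inv_pos.2 hm).le, Complex.norm_exp,
        Complex.re_mul_ofReal]
      have e1 : ((1 : ℂ) + (t : ℂ) * I).re = 1 := by simp
      rw [e1, one_mul, Real.exp_log hm, mul_inv_cancel₀ hm.ne', one_mul]
      refine ((f _).le_opNorm _).trans ?_
      calc _ ≤ R * 1 := by
            gcongr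
            · exact hf.right t
            · exact norm_single_le k j
        _ = R := mul_one R
  have hlip : ∀ j k, ‖h j k (1 / 4 + s * I) - h j k (1 / 4)‖ ≤ 8 * R * |s| := fun j k =>
    strip_lip (hsc j k).2.1 (hbd j k) s
  -- the value of the translated function
  set x' : Mat := co d (f (1 / 4 + s * I)) with hx'
  have hx'N : N (st hd) x' ≤ R := by
    refine N_le (hf.shift s) ?_
    rw [st_emb, hx']
    exact (embM_co hd _).symm
  have hx'e : ∀ j k, x' j k = Complex.exp (-(1 / 4 + s * I) * Real.log (mn d j k)) *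
      h j k (1 / 4 + s * I) := by
    intro j k
    simp only [h, Finset.sum_const, Finset.card_univ, Fintype.card_unit, one_smul]
    rw [hx', co, of_apply, ← mul_assoc, ← mul_assoc, ← Complex.exp_add]
    have : -(1 / 4 + (s : ℂ) * I) * (Real.log (mn d j k) : ℂ) +
        (1 / 4 + s * I) * (Real.log (mn d j k) : ℂ) = 0 := by ring
    rw [this, Complex.exp_zero, one_mul]
    push_cast
    rfl
  have hxe : ∀ j k, x j k = Complex.exp (-(1 / 4) * Real.log (mn d j k)) * h j k (1 / 4) := by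
    intro j k
    simp only [h, Finset.sum_const, Finset.card_univ, Fintype.card_unit, one_smul]
    have h1 : (f (1 / 4) : StrongDual ℂ Mat) (single k j 1 : Mat) = (mn d j k : ℂ) * x j k := by
      rw [hfx, st_emb]
      exact embM_single d x j k
    have hm : (mn d j k : ℂ) ≠ 0 := by exact_mod_cast (mn_pos hd j k).ne'
    have h2 : Complex.exp (-(1 / 4) * Real.log (mn d j k)) *
        (Complex.exp (1 / 4 * Real.log (mn d j k)) * ((mn d j k)⁻¹ : ℝ) *
        (f (1 / 4) : StrongDual ℂ Mat) (single k j 1 : Mat)) =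
        (Complex.exp (-(1 / 4) * Real.log (mn d j k)) *
        Complex.exp (1 / 4 * Real.log (mn d j k))) * ((((mn d j k)⁻¹ : ℝ) : ℂ) *
        (mn d j k : ℂ)) * x j k := by
      rw [h1]; ring
    refine Eq.symm (h2.trans ?_)
    rw [← Complex.exp_add]
    have h3 : -(1 / 4 : ℂ) * (Real.log (mn d j k) : ℂ) +
        (1 / 4) * (Real.log (mn d j k) : ℂ) = 0 := by ring
    rw [h3, Complex.exp_zero, one_mul]
    push_cast
    rw [inv_mul_cancel₀ hm, one_mul]
  -- the diagonal unitary
  let u : Fin 2 → ℂ := fun j => Complex.exp ((s * Real.log (d j) / 2 : ℝ) * I)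
  have hu : ∀ j, ‖u j‖ = 1 := fun j => Complex.norm_exp_ofReal_mul_I _
  have hy : N (st hd) (diagonal u * (x' * diagonal u) : Mat) ≤ R := by
    rw [M_diag_conj hd hu hu]
    exact hx'N
  let cc : Fin 2 → Fin 2 → ℂ := fun j k => if j = k then 1 else c
  have hcc : ∀ j k, ‖cc j k‖ = 1 := by
    intro j k
    simp only [cc]
    split_ifs
    · simp
    · have : (s : ℂ) * L * I = ((s * L : ℝ) : ℂ) * I := by push_cast; rfl
      rw [hc, this]
      exact Complex.norm_exp_ofReal_mul_I _
  have hphase : ∀ j k, u j * u k * Complex.exp (-(1 / 4 + s * I) * Real.log (mn d j k)) =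
      cc j k * Complex.exp (-(1 / 4) * Real.log (mn d j k)) := by
    intro j k
    have hone : mn d 0 1 = 1 / 2 := by rw [mn, hd.sum]
    have hone' : mn d 1 0 = 1 / 2 := by rw [mn, add_comm, hd.sum]
    have hself : ∀ j, mn d j j = d j := fun j => by rw [mn]; ring
    have hcases : (j = k) ∨ (j ≠ k) := em _
    rcases hcases with rfl | hjk
    · simp only [cc, if_true, one_mul, u, hself]
      rw [← Complex.exp_add, ← Complex.exp_add]
      congr 1
      push_cast
      ring
    · have hmn : mn d j k = 1 / 2 := by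
        fin_cases j <;> fin_cases k <;> first | exact hone | exact hone' | exact absurd rfl hjk
      have hsum : Real.log (d j) + Real.log (d k) = Real.log (d 0) + Real.log (d 1) := by
        fin_cases j <;> fin_cases k <;> first | rfl | exact add_comm _ _ | exact absurd rfl hjk
      simp only [cc, if_neg hjk, u, hmn]
      rw [hc, ← Complex.exp_add, ← Complex.exp_add, ← Complex.exp_add]
      congr 1
      have hsum' : (Real.log (d k) : ℂ) = Real.log (d 0) + Real.log (d 1) - Real.log (d j) := by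
        rw [← Complex.ofReal_add, ← hsum]
        push_cast
        ring
      rw [hL]
      push_cast
      rw [hsum']
      ring
  -- the difference
  set e : Mat := Matrix.of fun j k => cc j k * Complex.exp (-(1 / 4) * Real.log (mn d j k)) *
    (h j k (1 / 4) - h j k (1 / 4 + s * I)) with he
  have hdec : rot c x = diagonal u * (x' * diagonal u) + e := by
    ext j k
    simp only [rot, of_apply, Matrix.add_apply, diagonal_mul, mul_diagonal, he]
    have h1 : u j * (x' j k * u k) = cc j k * Complex.exp (-(1 / 4) * Real.log (mn d j k)) *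
        h j k (1 / 4 + s * I) := by
      rw [← hphase, hx'e]
      ring
    rw [h1]
    have h2 : (if j = k then x j k else c * x j k) = cc j k * x j k := by
      simp only [cc]
      split_ifs <;> simp
    rw [h2, hxe]
    ring
  have heN : N (st hd) e ≤ 32 * |s| * R := by
    have h1 := M_sum_le hd (fun j k => e j k)
    rw [sum_single] at h1
    refine h1.trans ?_
    have h2 : ∀ j k, ‖e j k‖ * Real.exp (Real.log (mn d j k) / 4) ≤ 8 * R * |s| := by
      intro j k
      rw [he, of_apply, norm_mul, norm_mul, hcc, one_mul, norm_sub_rev, Complex.norm_exp,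
        Complex.re_mul_ofReal]
      have h3 : (-(1 / 4) : ℂ).re * Real.log (mn d j k) = -(Real.log (mn d j k) / 4) := by
        norm_num
        ring
      rw [h3]
      calc _ = ‖h j k (1 / 4 + s * I) - h j k (1 / 4)‖ *
            (Real.exp (-(Real.log (mn d j k) / 4)) * Real.exp (Real.log (mn d j k) / 4)) := by ring
        _ = ‖h j k (1 / 4 + s * I) - h j k (1 / 4)‖ := by
            rw [← Real.exp_add, neg_add_cancel, Real.exp_zero, mul_one]
        _ ≤ _ := hlip j k
    calc _ ≤ ∑ _j : Fin 2, ∑ _k : Fin 2, 8 * R * |s| :=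
          Finset.sum_le_sum fun j _ => Finset.sum_le_sum fun k _ => h2 j k
      _ = 32 * |s| * R := by
          simp only [Fin.sum_univ_two]
          ring
  calc N (st hd) (rot c x) = N (st hd) (diagonal u * (x' * diagonal u) + e : Mat) := by rw [hdec]
    _ ≤ _ := M_add_le hd _ _
    _ ≤ R + 32 * |s| * R := add_le_add hy heN

end M2

/-! ### Singular values of `2 × 2` matrices -/

theorem exists_unitary_of_orth (B : Mat)
    (h : (starRingEnd ℂ) (B 0 0) * B 0 1 + (starRingEnd ℂ) (B 1 0) * B 1 1 = 0) :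
    ∃ (U : unitary Mat) (a b : ℂ), B = U * diagonal ![a, b] := by
  have key : ∀ (p q : ℂ), (p ≠ 0 ∨ q ≠ 0) → ∃ n : ℝ, 0 < n ∧
      (starRingEnd ℂ) p * p + (starRingEnd ℂ) q * q = (n : ℂ) ^ 2 := by
    intro p q hpq
    refine ⟨Real.sqrt (‖p‖ ^ 2 + ‖q‖ ^ 2), ?_, ?_⟩
    · apply Real.sqrt_pos.2
      rcases hpq with h | h
      · have := norm_pos_iff.2 h
        positivity
      · have := norm_pos_iff.2 h
        positivity
    · rw [← Complex.ofReal_pow, Real.sq_sqrt (by positivity), Complex.conj_mul', Complex.conj_mul']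
      push_cast
      ring
  have huni : ∀ (p q : ℂ) (n : ℝ), 0 < n → (starRingEnd ℂ) p * p + (starRingEnd ℂ) q * q = (n : ℂ) ^ 2 →
      (!![p / n, -(starRingEnd ℂ) q / n; q / n, (starRingEnd ℂ) p / n] : Mat) ∈ unitary Mat := by
    intro p q n hn hpq
    have hn' : (n : ℂ) ≠ 0 := by exact_mod_cast hn.ne'
    have e1 : (starRingEnd ℂ) p * p + (starRingEnd ℂ) q * q - (n : ℂ) ^ 2 = 0 := by rw [hpq]; ring
    rw [Unitary.mem_iff, star_eq_conjTranspose]
    constructor
    · ext j k
      fin_cases j <;> fin_cases k <;>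
        simp [Matrix.mul_apply, Fin.sum_univ_two] <;> field_simp <;>
        first | ring1 | linear_combination hpq
    · ext j k
      fin_cases j <;> fin_cases k <;>
        simp [Matrix.mul_apply, Fin.sum_univ_two] <;> field_simp <;>
        first | ring1 | linear_combination hpq
  by_cases h1 : B 0 0 ≠ 0 ∨ B 1 0 ≠ 0
  · obtain ⟨n, hn, hpq⟩ := key _ _ h1
    have hn' : (n : ℂ) ≠ 0 := by exact_mod_cast hn.ne'
    refine ⟨⟨_, huni _ _ n hn hpq⟩, n, (B 0 0 * B 1 1 - B 1 0 * B 0 1) / n, ?_⟩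
    ext j k
    fin_cases j <;> fin_cases k <;>
      simp [Matrix.mul_apply, Fin.sum_univ_two] <;> field_simp
    · linear_combination (-B 0 1) * hpq + B 0 0 * h
    · linear_combination (-B 1 1) * hpq + B 1 0 * h
  · push Not at h1
    by_cases h2 : B 0 1 ≠ 0 ∨ B 1 1 ≠ 0
    · obtain ⟨n, hn, hpq⟩ := key (B 1 1) (B 0 1) (by tauto)
      have hn' : (n : ℂ) ≠ 0 := by exact_mod_cast hn.ne'
      have hpq' : (starRingEnd ℂ) ((starRingEnd ℂ) (B 1 1)) * (starRingEnd ℂ) (B 1 1) +
          (starRingEnd ℂ) (-(starRingEnd ℂ) (B 0 1)) * (-(starRingEnd ℂ) (B 0 1)) = (n : ℂ) ^ 2 := by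
        rw [← hpq]
        simp
        ring
      refine ⟨⟨_, huni _ _ n hn hpq'⟩, 0, n, ?_⟩
      ext j k
      fin_cases j <;> fin_cases k <;>
        simp [Matrix.mul_apply, Fin.sum_univ_two, h1] <;> field_simp
    · push Not at h2
      refine ⟨1, 0, 0, ?_⟩
      ext j k
      fin_cases j <;> fin_cases k <;> simp [Matrix.mul_apply, Fin.sum_univ_two, h1, h2]

theorem exists_svd (A : Mat) :
    ∃ (U V : unitary Mat) (a b : ℂ), A = U * (diagonal ![a, b] * V) := by
  have hA := Matrix.isHermitian_conjTranspose_mul_self A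
  let W : unitary Mat := hA.eigenvectorUnitary
  have h1 := hA.conjStarAlgAut_star_eigenvectorUnitary
  rw [Unitary.conjStarAlgAut_star_apply] at h1
  set B : Mat := A * (W : Mat) with hB
  have h2 : Bᴴ * B = diagonal (RCLike.ofReal ∘ hA.eigenvalues) := by
    rw [← h1, hB, conjTranspose_mul]
    change _ = (W : Mat)ᴴ * (Aᴴ * A) * (W : Mat)
    simp only [mul_assoc]
  have h3 := congrFun (congrFun h2 0) 1
  rw [Matrix.mul_apply, Fin.sum_univ_two] at h3
  simp only [conjTranspose_apply, RCLike.star_def, ne_eq, Fin.zero_eq_one_iff, OfNat.ofNat_ne_one,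
    not_false_eq_true, diagonal_apply_ne] at h3
  obtain ⟨U, a, b, hU⟩ := exists_unitary_of_orth B h3
  refine ⟨U, star W, a, b, ?_⟩
  have h4 : (W : Mat) * ((star W : unitary Mat) : Mat) = 1 := Unitary.coe_mul_star_self W
  calc A = A * ((W : Mat) * ((star W : unitary Mat) : Mat)) := by rw [h4, mul_one]
    _ = B * ((star W : unitary Mat) : Mat) := by rw [hB, mul_assoc]
    _ = _ := by rw [hU, mul_assoc]

/-- the fourth power of the `S_4`-norm -/
noncomputable def Q (x : Mat) : ℝ := ((xᴴ * x) * (xᴴ * x)).trace.re / 2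

theorem Q_conj (U V : unitary Mat) (x : Mat) : Q ((U : Mat) * (x * (V : Mat))) = Q x := by
  have hU : (U : Mat)ᴴ * (U : Mat) = 1 := Unitary.coe_star_mul_self U
  have hV : (V : Mat) * (V : Mat)ᴴ = 1 := Unitary.coe_mul_star_self V
  have h1 : ((U : Mat) * (x * (V : Mat)))ᴴ * ((U : Mat) * (x * (V : Mat))) =
      (V : Mat)ᴴ * (xᴴ * x) * (V : Mat) := by
    rw [conjTranspose_mul, conjTranspose_mul]
    calc _ = (V : Mat)ᴴ * xᴴ * ((U : Mat)ᴴ * (U : Mat)) * x * (V : Mat) := by
          simp only [mul_assoc]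
      _ = _ := by rw [hU]; simp only [mul_assoc, one_mul]
  rw [Q, Q, h1]
  have h2 : (V : Mat)ᴴ * (xᴴ * x) * (V : Mat) * ((V : Mat)ᴴ * (xᴴ * x) * (V : Mat)) =
      (V : Mat)ᴴ * ((xᴴ * x) * (xᴴ * x) * (V : Mat)) := by
    calc _ = (V : Mat)ᴴ * (xᴴ * x) * ((V : Mat) * (V : Mat)ᴴ) * (xᴴ * x) * (V : Mat) := by
          simp only [mul_assoc]
      _ = _ := by rw [hV]; simp only [mul_assoc, one_mul]
  rw [h2, trace_mul_comm, mul_assoc, hV, mul_one]

theorem Q_diag (a b : ℂ) : Q (diagonal ![a, b]) = (‖a‖ ^ 4 + ‖b‖ ^ 4) / 2 := by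
  rw [Q]
  congr 1
  have : ((diagonal ![a, b] : Mat)ᴴ * diagonal ![a, b] * ((diagonal ![a, b] : Mat)ᴴ * diagonal ![a, b])).trace
      = ((‖a‖ ^ 4 + ‖b‖ ^ 4 : ℝ) : ℂ) := by
    have e : ∀ z : ℂ, (starRingEnd ℂ) z * z * ((starRingEnd ℂ) z * z) = ((‖z‖ ^ 4 : ℝ) : ℂ) := by
      intro z
      rw [Complex.conj_mul']
      push_cast
      ring
    rw [Matrix.trace_fin_two]
    simp only [diagonal_conjTranspose, diagonal_mul_diagonal, diagonal_apply_eq]
    rw [Complex.ofReal_add, ← e a, ← e b]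
    rfl
  rw [this, Complex.ofReal_re]

theorem trace_nonneg (X : Mat) : 0 ≤ (Xᴴ * X).trace.re := by
  rw [Matrix.trace_fin_two, Matrix.mul_apply, Matrix.mul_apply]
  simp only [Fin.sum_univ_two, conjTranspose_apply, RCLike.star_def, Complex.conj_mul']
  norm_cast
  positivity

theorem eq_zero_of_trace {X : Mat} (h : (Xᴴ * X).trace.re = 0) : X = 0 := by
  rw [Matrix.trace_fin_two, Matrix.mul_apply, Matrix.mul_apply] at h
  simp only [Fin.sum_univ_two, conjTranspose_apply, RCLike.star_def, Complex.conj_mul'] at h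
  norm_cast at h
  have h0 := sq_nonneg ‖X 0 0‖
  have h1 := sq_nonneg ‖X 1 0‖
  have h2 := sq_nonneg ‖X 0 1‖
  have h3 := sq_nonneg ‖X 1 1‖
  have e0 : ‖X 0 0‖ ^ 2 = 0 := by linarith
  have e1 : ‖X 1 0‖ ^ 2 = 0 := by linarith
  have e2 : ‖X 0 1‖ ^ 2 = 0 := by linarith
  have e3 : ‖X 1 1‖ ^ 2 = 0 := by linarith
  simp only [ne_eq, OfNat.ofNat_ne_zero, not_false_eq_true, pow_eq_zero_iff, norm_eq_zero]
    at e0 e1 e2 e3
  ext j k
  fin_cases j <;> fin_cases k <;> simp [e0, e1, e2, e3]

theorem Q_parallelogram (A B : Mat) :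
    Q (A + B) + Q (A - B) = 2 * Q A + 2 * Q B + 2 * ((B * Aᴴ)ᴴ * (B * Aᴴ)).trace.re +
      ((Aᴴ * B + Bᴴ * A)ᴴ * (Aᴴ * B + Bᴴ * A)).trace.re := by
  have e1 : (A + B)ᴴ * (A + B) = Aᴴ * A + Bᴴ * B + (Aᴴ * B + Bᴴ * A) := by
    rw [conjTranspose_add]; noncomm_ring
  have e2 : (A - B)ᴴ * (A - B) = Aᴴ * A + Bᴴ * B - (Aᴴ * B + Bᴴ * A) := by
    rw [conjTranspose_sub]; noncomm_ring
  have e3 : (Aᴴ * B + Bᴴ * A)ᴴ = Aᴴ * B + Bᴴ * A := by
    rw [conjTranspose_add, conjTranspose_mul, conjTranspose_mul, conjTranspose_conjTranspose,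
      conjTranspose_conjTranspose, add_comm]
  have e4 : ((B * Aᴴ)ᴴ * (B * Aᴴ)).trace = (Aᴴ * A * (Bᴴ * B)).trace := by
    rw [conjTranspose_mul, conjTranspose_conjTranspose]
    calc (A * Bᴴ * (B * Aᴴ)).trace = ((A * Bᴴ * B) * Aᴴ).trace := by simp only [mul_assoc]
      _ = (Aᴴ * (A * Bᴴ * B)).trace := trace_mul_comm _ _
      _ = _ := by simp only [mul_assoc]
  rw [Q, Q, Q, Q, e1, e2, e3, e4]
  set P := Aᴴ * A
  set R := Bᴴ * B
  set Y := Aᴴ * B + Bᴴ * A
  have e5 : (P + R + Y) * (P + R + Y) + (P + R - Y) * (P + R - Y) =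
      2 • (P * P) + 2 • (R * R) + 2 • (P * R) + 2 • (R * P) + 2 • (Y * Y) := by noncomm_ring
  have e6 := congrArg Matrix.trace e5
  simp only [trace_add, trace_smul] at e6
  rw [trace_mul_comm R P] at e6
  have e7 := congrArg Complex.re e6
  simp only [Complex.add_re, nsmul_eq_mul, Complex.mul_re] at e7
  norm_num at e7
  linarith

/-! ### Comparison with the tracial state -/

/-- the weights of the tracial state -/
noncomputable def dt : Fin 2 → ℝ := fun _ => 1 / 2

theorem ht : Wt dt := ⟨fun _ => by norm_num [dt], by norm_num [dt]⟩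

theorem embM_dt (x y : Mat) : embM dt x y = 1 / 2 * (x * y).trace := by
  rw [embM_apply, Matrix.trace_fin_two, Matrix.mul_apply, Matrix.mul_apply]
  simp only [Fin.sum_univ_two, mn, dt]
  push_cast
  ring

theorem embM_dt_conj (U V x y : Mat) :
    embM dt (U * (x * V)) y = embM dt x (V * (y * U)) := by
  rw [embM_dt, embM_dt]
  congr 1
  calc (U * (x * V) * y).trace = (U * (x * V * y)).trace := by simp only [mul_assoc]
    _ = (x * V * y * U).trace := trace_mul_comm _ _
    _ = _ := by simp only [mul_assoc]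

theorem M_unitary (U V : unitary Mat) (x : Mat) :
    N (st ht) ((U : Mat) * (x * (V : Mat)) : Mat) = N (st ht) x :=
  M_conj ht U V (embM_dt_conj _ _) (embM_dt_conj _ _) x

/-- the norm of the tracial `L^4`-space -/
theorem N_eq_Q (x : Mat) : N (st ht) x ^ 4 = Q x := by
  obtain ⟨U, V, a, b, rfl⟩ := exists_svd x
  rw [M_unitary, Q_conj, N_diag, Q_diag]
  simp only [dt]
  ring

theorem rot_neg_one (x : Mat) :
    rot (-1) x = diagonal ![1, -1] * (x * diagonal ![1, -1]) := by
  ext j k
  fin_cases j <;> fin_cases k <;> simp [rot]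

theorem M_rot_neg_one {d : Fin 2 → ℝ} (hd : Wt d) (x : Mat) :
    N (st hd) (rot (-1) x) = N (st hd) x := by
  rw [rot_neg_one]
  refine M_diag_conj hd ?_ ?_ x <;> · intro i; fin_cases i <;> simp

/-- diagonal matrices -/
theorem exists_diag {x : Mat} (h : rot 0 x = x) : x = diagonal ![x 0 0, x 1 1] := by
  have h1 := congrFun (congrFun h 0) 1
  have h2 := congrFun (congrFun h 1) 0
  simp only [rot, of_apply] at h1 h2
  norm_num at h1 h2
  ext j k
  fin_cases j <;> fin_cases k <;> simp [← h1, ← h2]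

theorem rot_smul (c e : ℂ) (x : Mat) : rot c (e • x) = e • rot c x := by
  ext j k
  simp only [rot, of_apply, Matrix.smul_apply, smul_eq_mul]
  split_ifs <;> ring

theorem rot_add (c : ℂ) (x y : Mat) : rot c (x + y) = rot c x + rot c y := by
  ext j k
  simp only [rot, of_apply, Matrix.add_apply]
  split_ifs <;> ring

theorem rot_diag (c a b : ℂ) : rot c (diagonal ![a, b]) = diagonal ![a, b] := by
  ext j k
  fin_cases j <;> fin_cases k <;> simp [rot]

theorem rot_zero_diag (x : Mat) : rot 0 x = diagonal ![x 0 0, x 1 1] := by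
  ext j k
  fin_cases j <;> fin_cases k <;> simp [rot]

theorem rot_eq (c : ℂ) (x : Mat) : rot c x = rot 0 x + c • (x - rot 0 x) := by
  ext j k
  simp only [rot, of_apply, Matrix.add_apply, Matrix.smul_apply, Matrix.sub_apply, smul_eq_mul]
  split_ifs <;> ring

/-- the images of the diagonal matrix units -/
theorem diag_onto {d : Fin 2 → ℝ} (hd : Wt d) (S : Mat →ₗ[ℂ] Mat)
    (hS : ∀ x : Mat, N (st ht) (S x) = N (st hd) x) {s t : ℂ}
    (hA : S (diagonal ![1, 0]) = diagonal ![s, t]) :
    (∀ a b, ∃ a' b', S (diagonal ![a, b]) = diagonal ![a', b']) ∧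
    (∀ a b, ∃ a' b', S (diagonal ![a', b']) = diagonal ![a, b]) := by
  have hd0 := hd.pos 0
  have hd1 := hd.pos 1
  set B := S (diagonal ![0, 1]) with hB
  have hdec : ∀ a b : ℂ, (diagonal ![a, b] : Mat) = a • diagonal ![1, 0] + b • diagonal ![0, 1] := by
    intro a b
    ext j k
    fin_cases j <;> fin_cases k <;> simp
  have hSd : ∀ a b : ℂ, S (diagonal ![a, b]) = a • diagonal ![s, t] + b • B := by
    intro a b
    rw [hdec, map_add, map_smul, map_smul, hA]
  have hQ : ∀ a b : ℂ, Q (a • diagonal ![s, t] + b • B) = d 0 * ‖a‖ ^ 4 + d 1 * ‖b‖ ^ 4 := by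
    intro a b
    rw [← N_eq_Q, ← hSd, hS, N_diag]
  have q1 := hQ 1 1
  have q2 := hQ 1 (-1)
  have q3 := hQ 1 0
  have q4 := hQ 0 1
  simp only [one_smul, zero_smul, add_zero, zero_add, neg_smul, ← sub_eq_add_neg, norm_one,
    norm_neg, norm_zero] at q1 q2 q3 q4
  norm_num at q1 q2 q3 q4
  have hpar := Q_parallelogram (diagonal ![s, t]) B
  rw [q1, q2, q3, q4] at hpar
  have n1 := trace_nonneg (B * (diagonal ![s, t] : Mat)ᴴ)
  have n2 := trace_nonneg ((diagonal ![s, t] : Mat)ᴴ * B + Bᴴ * diagonal ![s, t])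
  have z1 := eq_zero_of_trace (X := B * (diagonal ![s, t] : Mat)ᴴ) (by linarith)
  have z2 := eq_zero_of_trace (X := (diagonal ![s, t] : Mat)ᴴ * B + Bᴴ * diagonal ![s, t])
    (by linarith)
  have z3 : (diagonal ![s, t] : Mat)ᴴ * B = 0 := by
    rw [← conjTranspose_conjTranspose ((diagonal ![s, t] : Mat)ᴴ * B),
      ← conjTranspose_zero]
    refine congrArg conjTranspose (eq_zero_of_trace ?_)
    rw [conjTranspose_conjTranspose]
    suffices h : (diagonal ![s, t] : Mat)ᴴ * B * ((diagonal ![s, t] : Mat)ᴴ * B)ᴴ = 0 by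
      rw [h]
      simp
    have h1 : (diagonal ![s, t] : Mat)ᴴ * B = -(Bᴴ * diagonal ![s, t]) := eq_neg_of_add_eq_zero_left z2
    have h2 : (diagonal ![s, t] : Mat) * Bᴴ = 0 := by
      have := congrArg conjTranspose z1
      rwa [conjTranspose_mul, conjTranspose_conjTranspose, conjTranspose_zero] at this
    rw [conjTranspose_mul, conjTranspose_conjTranspose]
    calc (diagonal ![s, t] : Mat)ᴴ * B * (Bᴴ * diagonal ![s, t])
        = -(Bᴴ * diagonal ![s, t]) * (Bᴴ * diagonal ![s, t]) := by rw [h1]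
      _ = -(Bᴴ * (diagonal ![s, t] * Bᴴ) * diagonal ![s, t]) := by simp only [mul_assoc, neg_mul]
      _ = 0 := by rw [h2]; simp
  -- entries
  have c00 := congrFun (congrFun z1 0) 0
  have c10 := congrFun (congrFun z1 1) 0
  have c01 := congrFun (congrFun z1 0) 1
  have c11 := congrFun (congrFun z1 1) 1
  have r00 := congrFun (congrFun z3 0) 0
  have r01 := congrFun (congrFun z3 0) 1
  have r10 := congrFun (congrFun z3 1) 0
  have r11 := congrFun (congrFun z3 1) 1
  simp only [diagonal_conjTranspose, mul_diagonal, diagonal_mul] at c00 c10 c01 c11 r00 r01 r10 r11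
  simp at c00 c10 c01 c11 r00 r01 r10 r11
  have hst : ¬ (s = 0 ∧ t = 0) := by
    rintro ⟨rfl, rfl⟩
    rw [Q_diag] at q3
    simp at q3
    linarith
  have hB0 : B ≠ 0 := by
    intro h
    rw [h] at q4
    simp [Q] at q4
    linarith
  by_cases hs : s = 0
  · have ht0 : t ≠ 0 := fun h => hst ⟨hs, h⟩
    have b01 : B 0 1 = 0 := c01.resolve_right ht0
    have b11 : B 1 1 = 0 := c11.resolve_right ht0
    have b10 : B 1 0 = 0 := r10.resolve_left ht0
    have hBd : B = diagonal ![B 0 0, 0] := by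
      ext j k
      fin_cases j <;> fin_cases k <;> simp [b01, b11, b10]
    have b00 : B 0 0 ≠ 0 := by
      intro h
      apply hB0
      rw [hBd, h]
      ext j k
      fin_cases j <;> fin_cases k <;> simp
    constructor
    · intro a b
      refine ⟨b * B 0 0, a * t, ?_⟩
      rw [hSd, hs]
      conv_lhs => rw [hBd]
      ext j k
      fin_cases j <;> fin_cases k <;> simp
    · intro a b
      refine ⟨b / t, a / B 0 0, ?_⟩
      rw [hSd, hs]
      conv_lhs => rw [hBd]
      ext j k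
      fin_cases j <;> fin_cases k <;> simp [ht0, b00]
  · have b00 : B 0 0 = 0 := c00.resolve_right hs
    have b01 : B 0 1 = 0 := r01.resolve_left hs
    have b10 : B 1 0 = 0 := c10.resolve_right hs
    have hBd : B = diagonal ![0, B 1 1] := by
      ext j k
      fin_cases j <;> fin_cases k <;> simp [b01, b00, b10]
    have b11 : B 1 1 ≠ 0 := by
      intro h
      apply hB0
      rw [hBd, h]
      ext j k
      fin_cases j <;> fin_cases k <;> simp
    have ht0 : t = 0 := c11.resolve_left b11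
    constructor
    · intro a b
      refine ⟨a * s, b * B 1 1, ?_⟩
      rw [hSd, ht0]
      conv_lhs => rw [hBd]
      ext j k
      fin_cases j <;> fin_cases k <;> simp
    · intro a b
      refine ⟨a / s, b / B 1 1, ?_⟩
      rw [hSd, ht0]
      conv_lhs => rw [hBd]
      ext j k
      fin_cases j <;> fin_cases k <;> simp [hs, b11]

/-- the isometry preserves the off-diagonal matrices -/
theorem offdiag {d : Fin 2 → ℝ} (hd : Wt d) (S : Mat →ₗ[ℂ] Mat)
    (hS : ∀ x : Mat, N (st ht) (S x) = N (st hd) x) {s t : ℂ}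
    (hA : S (diagonal ![1, 0]) = diagonal ![s, t]) {x : Mat} (hx : rot 0 x = 0) :
    rot 0 (S x) = 0 := by
  obtain ⟨-, honto⟩ := diag_onto hd S hS hA
  obtain ⟨a', b', hab⟩ := honto (S x 0 0) (S x 1 1)
  set δ : Mat := rot 0 (S x) with hδ
  have hδd : δ = diagonal ![S x 0 0, S x 1 1] := rot_zero_diag _
  set o : Mat := S x - δ with ho
  have hrotx : rot (-1) x = -x := by
    rw [rot_eq, hx]
    simp
  have hroto : rot (-1) o = -o := by
    have : rot 0 o = 0 := by
      rw [ho, sub_eq_add_neg, ← neg_one_smul ℂ δ, rot_add, rot_smul, hδd, rot_diag,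
        rot_zero_diag]
      simp
    rw [rot_eq, this]
    simp
  have step : ∀ n : ℂ, N (st ht) (o + (n + 2) • δ : Mat) = N (st ht) (o + n • δ : Mat) := by
    intro n
    have e1 : (o + (n + 2) • δ : Mat) = S (x + (n + 1) • diagonal ![a', b']) := by
      rw [map_add, map_smul, hab, ← hδd, ho]
      module
    have e2 : (rot (-1) (x + (n + 1) • diagonal ![a', b'] : Mat)) =
        (-x + (n + 1) • diagonal ![a', b'] : Mat) := by
      rw [rot_add, rot_smul, rot_diag, hrotx]
    have e3 : S (-x + (n + 1) • diagonal ![a', b']) = rot (-1) (o + n • δ) := by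
      rw [map_add, map_smul, map_neg, hab, rot_add, rot_smul, hroto, ← hδd]
      have : rot (-1) δ = δ := by rw [hδd, rot_diag]
      rw [this, ho]
      module
    rw [e1, hS, ← M_rot_neg_one, e2, ← hS, e3, M_rot_neg_one]
  have steps : ∀ k : ℕ, N (st ht) (o + ((2 * k : ℕ) : ℂ) • δ : Mat) = N (st ht) (o : Mat) := by
    intro k
    induction k with
    | zero => simp
    | succ k ih =>
      have : ((2 * (k + 1) : ℕ) : ℂ) = ((2 * k : ℕ) : ℂ) + 2 := by
        push_cast
        ring
      rw [this, step, ih]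
  have hzero : N (st ht) δ = 0 := by
    have hnn := N_nonneg (st ht) δ
    by_contra hne
    have hpos : 0 < N (st ht) δ := lt_of_le_of_ne hnn (Ne.symm hne)
    obtain ⟨k, hk⟩ := exists_nat_gt (N (st ht) o / N (st ht) δ)
    have h1 : ((2 * k : ℕ) : ℝ) * N (st ht) δ ≤ 2 * N (st ht) o := by
      have h2 : ((2 * k : ℕ) : ℝ) * N (st ht) δ = N (st ht) (((2 * k : ℕ) : ℂ) • δ : Mat) := by
        rw [M_smul, Complex.norm_natCast]
      have h3 : (((2 * k : ℕ) : ℂ) • δ : Mat) = (o + ((2 * k : ℕ) : ℂ) • δ) + -o := by abel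
      rw [h2, h3]
      refine (M_add_le ht _ _).trans ?_
      rw [steps, M_neg]
      linarith
    rw [div_lt_iff₀ hpos] at hk
    push_cast at h1
    linarith
  have h4 := N_diag ht (S x 0 0) (S x 1 1)
  rw [← hδd, hzero] at h4
  have h5 : 0 ≤ ‖S x 0 0‖ ^ 4 := by positivity
  have h6 : 0 ≤ ‖S x 1 1‖ ^ 4 := by positivity
  simp only [dt] at h4
  norm_num at h4
  have h7 : ‖S x 0 0‖ ^ 4 = 0 := by linarith
  have h8 : ‖S x 1 1‖ ^ 4 = 0 := by linarith
  simp only [ne_eq, OfNat.ofNat_ne_zero, not_false_eq_true, pow_eq_zero_iff, norm_eq_zero]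
    at h7 h8
  rw [hδd, h7, h8]
  ext j k
  fin_cases j <;> fin_cases k <;> simp

theorem rot_comm {d : Fin 2 → ℝ} (hd : Wt d) (S : Mat →ₗ[ℂ] Mat)
    (hS : ∀ x : Mat, N (st ht) (S x) = N (st hd) x) {s t : ℂ}
    (hA : S (diagonal ![1, 0]) = diagonal ![s, t]) (c : ℂ) (x : Mat) :
    S (rot c x) = rot c (S x) := by
  obtain ⟨hinto, -⟩ := diag_onto hd S hS hA
  obtain ⟨a', b', hab⟩ := hinto (x 0 0) (x 1 1)
  have h0 : rot 0 (x - rot 0 x) = 0 := by
    rw [rot_zero_diag x, sub_eq_add_neg, ← neg_one_smul ℂ (diagonal _), rot_add, rot_smul,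
      rot_diag, rot_zero_diag]
    simp
  have h1 := offdiag hd S hS hA h0
  have h2 : S (rot 0 x) = diagonal ![a', b'] := by rw [rot_zero_diag, hab]
  have h3 : S x = diagonal ![a', b'] + S (x - rot 0 x) := by
    rw [map_sub, h2]
    abel
  have h4 : rot c (S (x - rot 0 x)) = c • S (x - rot 0 x) := by
    rw [rot_eq, h1]
    simp
  rw [rot_eq, map_add, map_smul, h2, h3, rot_add, rot_diag, h4]

theorem no_isometry {d : Fin 2 → ℝ} (hd : Wt d) (S : Mat →ₗ[ℂ] Mat)
    (hsurj : Function.Surjective S) (hS : ∀ x : Mat, N (st ht) (S x) = N (st hd) x) {s t : ℂ}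
    (hA : S (diagonal ![1, 0]) = diagonal ![s, t])
    (hL : (Real.log (d 0) + Real.log (d 1)) / 2 - Real.log (1 / 2) ≤ -499) : False := by
  set L : ℝ := (Real.log (d 0) + Real.log (d 1)) / 2 - Real.log (1 / 2) with hLdef
  obtain ⟨x, hx⟩ := hsurj !![1, I; I, 1]
  have h1 := shift_le hd (Real.pi / (2 * L)) x
  have hL0 : L ≠ 0 := by linarith
  have h2 : Complex.exp ((Real.pi / (2 * L) : ℝ) * ((Real.log (d 0) + Real.log (d 1)) / 2 -
      Real.log (1 / 2) : ℝ) * I) = I := by
    rw [← hLdef]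
    have : ((Real.pi / (2 * L) : ℝ) : ℂ) * (L : ℂ) * I = Real.pi / 2 * I := by
      rw [← Complex.ofReal_mul]
      have : Real.pi / (2 * L) * L = Real.pi / 2 := by field_simp
      rw [this]
      push_cast
      ring
    rw [this, Complex.exp_pi_div_two_mul_I]
  rw [h2, ← hS, ← hS, rot_comm hd S hS hA, hx] at h1
  have h3 : N (st ht) (rot I !![1, I; I, 1] : Mat) ^ 4 = 8 := by
    rw [N_eq_Q]
    have : (rot I !![1, I; I, 1] : Mat) = !![1, -1; -1, 1] := by
      ext j k
      fin_cases j <;> fin_cases k <;> simp [rot]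
    rw [this, Q, Matrix.trace_fin_two]
    simp [Matrix.mul_apply, Fin.sum_univ_two]
    norm_num
  have h4 : N (st ht) (!![1, I; I, 1] : Mat) ^ 4 = 4 := by
    rw [N_eq_Q, Q, Matrix.trace_fin_two]
    simp [Matrix.mul_apply, Fin.sum_univ_two]
    norm_num
  have h5 : |Real.pi / (2 * L)| ≤ 1 / 200 := by
    rw [abs_div, abs_of_pos Real.pi_pos, div_le_iff₀ (by positivity), abs_of_neg (by linarith)]
    have := Real.pi_lt_four
    linarith
  have h6 := N_nonneg (st ht) (rot I !![1, I; I, 1] : Mat)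
  have h7 := N_nonneg (st ht) (!![1, I; I, 1] : Mat)
  have h8 : N (st ht) (rot I !![1, I; I, 1] : Mat) ≤ 1.16 * N (st ht) (!![1, I; I, 1] : Mat) := by
    refine h1.trans (mul_le_mul_of_nonneg_right ?_ h7)
    norm_num
    linarith
  have h9 := pow_le_pow_left₀ h6 h8 4
  rw [mul_pow, h3, h4] at h9
  norm_num at h9

/-- the space `L^4`, as a space of matrices -/
noncomputable def toLp {d : Fin 2 → ℝ} (hd : Wt d) : Mat ≃ₗ[ℂ] LpSpace (st hd) 4 where
  toFun x := ⟨(st hd).emb x, by
    obtain ⟨R, f, hf, hfx⟩ := exists_adm (hmem hd) x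
    exact ⟨f, R, hf, by rw [four_eq, hfx]⟩⟩
  map_add' x y := Subtype.ext (emb_add (st hd) x y)
  map_smul' c x := Subtype.ext (emb_smul (st hd) c x)
  invFun η := co d (η : StrongDual ℂ M2.M)
  left_inv x := co_embM hd x
  right_inv η := Subtype.ext (embM_co hd (η : StrongDual ℂ M2.M))

theorem toLp_coe {d : Fin 2 → ℝ} (hd : Wt d) (x : Mat) :
    ((toLp hd x : LpSpace (st hd) 4) : StrongDual ℂ M2.M) = (st hd).emb x := rfl

/-- there are weights with a very small ratio -/
theorem exists_wt : ∃ d : Fin 2 → ℝ, Wt d ∧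
    (Real.log (d 0) + Real.log (d 1)) / 2 - Real.log (1 / 2) ≤ -499 := by
  have h1 : Real.exp (-1000) < 1 := by
    rw [Real.exp_lt_one_iff]
    norm_num
  refine ⟨![1 - Real.exp (-1000), Real.exp (-1000)], ⟨?_, ?_⟩, ?_⟩
  · intro i
    fin_cases i
    · simp
    · simp [Real.exp_pos]
  · simp
  · simp only [Matrix.cons_val_zero, Matrix.cons_val_one]
    have h2 : Real.log (1 - Real.exp (-1000)) ≤ 0 :=
      Real.log_nonpos (by linarith) (by linarith [Real.exp_pos (-1000)])
    have h3 : Real.log (1 / 2) = - Real.log 2 := by rw [one_div, Real.log_inv]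
    rw [Real.log_exp, h3]
    have := Real.log_two_lt_d9
    linarith

end Aux

/-! ### The example -/

open scoped Matrix.Norms.L2Operator
open Aux

theorem exists_eval_bidual (Λ : StrongDual ℂ (StrongDual ℂ Mat)) :
    ∃ x : Mat, ∀ ξ : StrongDual ℂ Mat, Λ ξ = ξ x := by
  refine ⟨∑ j, ∑ k, Λ (ent j k) • Matrix.single j k 1, fun ξ => ?_⟩
  conv_lhs => rw [sum_ent ξ]
  simp only [map_sum, map_smul, smul_eq_mul]
  refine Finset.sum_congr rfl fun j _ => Finset.sum_congr rfl fun k _ => ?_
  rw [mul_comm]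

/-- The JBW*-algebra of `2 × 2` matrices: the operator norm, the Jordan product
`x ∘ y = (xy + yx) / 2`, the conjugate transpose as involution. -/
noncomputable def matAlg : JBWStarAlgebra where
  M := Mat
  V := StrongDual ℂ Mat
  mul := fun x y => jmul x y
  inv := fun x => xᴴ
  one := 1
  pair := fun x ξ => ξ x
  isJordan :=
    { mul_add := fun x y z => map_add _ _ _
      mul_smul := fun c x y => map_smul _ _ _
      mul_comm := fun x y => by
        rw [jmul_apply, jmul_apply, add_comm]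
      jordan := jmul_jordan
      one_mul := fun x => by
        rw [jmul_apply, one_mul, mul_one]
        module }
  isInvolution :=
    { inv_inv := fun x => conjTranspose_conjTranspose x
      inv_add := fun x y => conjTranspose_add x y
      inv_smul := fun c x => conjTranspose_smul c x
      inv_mul := fun x y => by
        simp only [jmul_apply, conjTranspose_smul, conjTranspose_add, conjTranspose_mul]
        simp [add_comm] }
  isJBNorm :=
    { norm_mul_le := norm_jmul_le
      norm_inv := fun x => l2_opNorm_conjTranspose x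
      norm_triple := fun x => by
        rw [triple, jmul_triple, Aux.norm_triple] }
  isDual :=
    { add_left := fun x y v => map_add v x y
      smul_left := fun c x v => map_smul v c x
      add_right := fun x u v => rfl
      smul_right := fun x c v => rfl
      norm_le_iff := fun x C hC => by
        constructor
        · intro h v
          rw [mul_comm]
          exact (v.le_opNorm x).trans (mul_le_mul_of_nonneg_left h (norm_nonneg v))
        · intro h
          exact NormedSpace.norm_le_dual_bound ℂ x hC h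
      surjective := exists_eval_bidual }

section bridge

variable {d : Fin 2 → ℝ} (hd : Wt d)

/-- the functional `phi d`, as an element of the predual -/
noncomputable def ph (d : Fin 2 → ℝ) : matAlg.V := phi d

include hd in
theorem isFaithfulState : IsFaithfulState (ph d) where
  map_one := (st hd).map_one
  faithful a ha ha0 := (st hd).faithful a ha ha0

theorem isEmb_iff (x : matAlg.M) (v : matAlg.V) : IsEmb (ph d) x v ↔ v = embM d x := by
  constructor
  · intro h
    exact ContinuousLinearMap.ext h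
  · rintro rfl y
    rfl

theorem admissible_iff (f : ℂ → matAlg.V) (R : ℝ) :
    Admissible (ph d) f R ↔ Aux.Admissible (st hd) f R := by
  constructor
  · intro h
    refine ⟨fun _ _ _ => trivial, h.continuousOn, h.differentiableOn, h.bounded, ?_, h.right⟩
    obtain ⟨g, hg, hgf⟩ := h.left
    exact ⟨g, hg, fun t => ⟨(isEmb_iff _ _).1 (hgf t).1, (hgf t).2⟩⟩
  · intro h
    refine ⟨h.continuousOn, h.differentiableOn, h.bounded, ?_, h.right⟩
    obtain ⟨g, hg, hgf⟩ := h.left
    exact ⟨g, hg, fun t => ⟨(isEmb_iff _ _).2 (hgf t).1, (hgf t).2⟩⟩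

theorem lpNorm_eq (v : matAlg.V) : lpNorm (ph d) 4 v = Aux.lpNorm (st hd) 4 v := by
  unfold lpNorm Aux.lpNorm
  congr 1
  ext R
  constructor
  · rintro ⟨f, hf, hfv⟩
    exact ⟨f, (admissible_iff hd f R).1 hf, hfv⟩
  · rintro ⟨f, hf, hfv⟩
    exact ⟨f, (admissible_iff hd f R).2 hf, hfv⟩

include hd in
theorem mem_lpSpace (v : matAlg.V) : v ∈ LpSpace (ph d) 4 := by
  obtain ⟨R, f, hf, hfx⟩ := exists_adm (hmem hd) (co d v)
  refine ⟨f, R, (admissible_iff hd f R).2 hf, ?_⟩
  rw [four_eq, hfx]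
  exact embM_co hd v

theorem co_add (v w : StrongDual ℂ Mat) : co d (v + w) = co d v + co d w := by
  ext j k
  simp only [co, of_apply, Matrix.add_apply]
  rw [← mul_add]
  rfl

theorem co_smul (c : ℂ) (v : StrongDual ℂ Mat) : co d (c • v) = c • co d v := by
  ext j k
  simp only [co, of_apply, Matrix.smul_apply, smul_eq_mul]
  rw [mul_left_comm]
  rfl

end bridge

/-- **The nonassociative `L^p`-spaces depend on the state.** There are a JBW*-algebra `J` of
dimension `4` (the `2 × 2` matrices) and normal faithful states `φ` and `ψ` on it such that the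
Banach spaces `L^4(J, φ)` and `L^4(J, ψ)` are not isometrically isomorphic. -/
theorem result : ∃ J : JBWStarAlgebra, Module.finrank ℂ J.M = 4 ∧
    ∃ φ ψ : J.V, IsFaithfulState φ ∧ IsFaithfulState ψ ∧ ¬ ∃ T, IsIsometry φ ψ 4 T := by
  refine ⟨matAlg, ?_, ?_⟩
  · change Module.finrank ℂ (Matrix (Fin 2) (Fin 2) ℂ) = 4
    rw [Module.finrank_matrix]
    simp
  obtain ⟨d, hd, hL⟩ := exists_wt
  refine ⟨ph d, ph dt, isFaithfulState hd, isFaithfulState ht, ?_⟩
  rintro ⟨T, hT⟩
  let T' : StrongDual ℂ Mat → StrongDual ℂ Mat := T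
  have hadd : ∀ u v : StrongDual ℂ Mat, T' (u + v) = T' u + T' v := fun u v =>
    hT.add u (mem_lpSpace hd u) v (mem_lpSpace hd v)
  have hsmul : ∀ (c : ℂ) (v : StrongDual ℂ Mat), T' (c • v) = c • T' v := fun c v =>
    hT.smul c v (mem_lpSpace hd v)
  -- the isometry on matrices
  let S : Mat →ₗ[ℂ] Mat :=
    { toFun := fun x => co dt (T' (embM d x))
      map_add' := fun x y => by rw [embM_add, hadd, co_add]
      map_smul' := fun c x => by rw [embM_smul, hsmul, co_smul, RingHom.id_apply] }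
  have hSdef : ∀ x, S x = co dt (T' (embM d x)) := fun x => rfl
  have hS : ∀ x : Mat, N (st ht) (S x) = N (st hd) x := by
    intro x
    have h2 := (lpNorm_eq ht (T (embM d x))).symm.trans
      ((hT.norm (embM d x) (mem_lpSpace hd _)).trans (lpNorm_eq hd _))
    have h3 : (st ht).emb (S x) = T' (embM d x) := by
      rw [st_emb, hSdef]
      exact embM_co ht _
    change Aux.lpNorm (st ht) 4 ((st ht).emb (S x)) = Aux.lpNorm (st hd) 4 ((st hd).emb x)
    rw [h3]
    exact h2
  have hsurj : Function.Surjective S := by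
    intro y
    obtain ⟨v, -, hv⟩ := hT.bij.surjOn (mem_lpSpace ht (embM dt y))
    refine ⟨co d v, ?_⟩
    have h4 : embM d (co d v) = v := embM_co hd v
    have h5 : T' v = embM dt y := hv
    rw [hSdef, h4, h5]
    exact co_embM ht y
  -- bring the image of the first matrix unit into diagonal form
  obtain ⟨U, V, a, b, hA⟩ := exists_svd (S (diagonal ![1, 0]))
  let S' : Mat →ₗ[ℂ] Mat :=
    (conjL ((star U : unitary Mat) : Mat) ((star V : unitary Mat) : Mat) : Mat →ₗ[ℂ] Mat) ∘ₗ S
  have hS' : ∀ x : Mat, S' x = ((star U : unitary Mat) : Mat) * (S x *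
      ((star V : unitary Mat) : Mat)) := fun x => rfl
  have hU : ((star U : unitary Mat) : Mat) * (U : Mat) = 1 := Unitary.coe_star_mul_self U
  have hV : (V : Mat) * ((star V : unitary Mat) : Mat) = 1 := Unitary.coe_mul_star_self V
  refine no_isometry hd S' ?_ ?_ (s := a) (t := b) ?_ hL
  · intro y
    obtain ⟨x, hx⟩ := hsurj ((U : Mat) * (y * (V : Mat)))
    refine ⟨x, ?_⟩
    rw [hS', hx]
    calc _ = (((star U : unitary Mat) : Mat) * (U : Mat)) * y *
          ((V : Mat) * ((star V : unitary Mat) : Mat)) := by simp only [mul_assoc]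
      _ = y := by rw [hU, hV, one_mul, mul_one]
  · intro x
    rw [hS', M_unitary, hS]
  · rw [hS', hA]
    calc _ = (((star U : unitary Mat) : Mat) * (U : Mat)) * diagonal ![a, b] *
          ((V : Mat) * ((star V : unitary Mat) : Mat)) := by simp only [mul_assoc]
      _ = _ := by rw [hU, hV, one_mul, mul_one]

end Pool.Agent.Results.MP_09632a_an.StateDependence
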